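import Pool.Agent.H45.F80.A2
import Pool.Agent.H45.F80.A6
/-! Module LAM (MP_80e906_al): the form `κ(y, u)`, where `δ y = [u, y]`, for ad-nilpotent `y`. -/
open Module
namespace F80

variable {K g : Type*} [Field K] [CharZero K] [LieRing g] [LieAlgebra K g]
  [FiniteDimensional K g] [LieAlgebra.IsKilling K g]

namespace LAM

omit [CharZero K] in
/-- In a Killing Lie algebra, an element orthogonal to the centraliser of `y` lies in `[y, g]`. -/
theorem mem_range_ad {y a : g} (ha : ∀ z : g, ⁅y, z⁆ = 0 → killingForm K g z a = 0) :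
    a ∈ LinearMap.range (LieAlgebra.ad K g y : Module.End K g) := by
  have hnd : (killingForm K g).Nondegenerate := LieAlgebra.IsKilling.killingForm_nondegenerate K g
  have hrefl : (killingForm K g).IsRefl := (LieModule.traceForm_isSymm K g g).isRefl
  have horth : (killingForm K g).orthogonal
      (LinearMap.range (LieAlgebra.ad K g y : Module.End K g)) ≤
      LinearMap.ker (LieAlgebra.ad K g y : Module.End K g) := by
    intro z h
    rw [LinearMap.BilinForm.mem_orthogonal_iff] at h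
    rw [LinearMap.mem_ker]
    refine hnd.1 _ fun x => ?_
    have h1 : killingForm K g ⁅y, x⁆ z = 0 := h ((LieAlgebra.ad K g y : Module.End K g) x) ⟨x, rfl⟩
    have h2 : killingForm K g ⁅y, z⁆ x = -killingForm K g z ⁅y, x⁆ :=
      LieModule.traceForm_apply_lie_apply' K g g y z x
    change killingForm K g ⁅y, z⁆ x = 0
    rw [h2, LieModule.traceForm_comm K g g z ⁅y, x⁆, h1, neg_zero]
  rw [← LinearMap.BilinForm.orthogonal_orthogonal hnd hrefl
    (LinearMap.range (LieAlgebra.ad K g y : Module.End K g))]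
  intro z hz
  exact ha z (horth hz)

omit [CharZero K] [FiniteDimensional K g] [LieAlgebra.IsKilling K g] in
theorem commute_ad {y z : g} (hz : ⁅y, z⁆ = 0) :
    Commute (LieAlgebra.ad K g z : Module.End K g) (LieAlgebra.ad K g y : Module.End K g) := by
  refine LinearMap.ext fun m => ?_
  change ⁅z, ⁅y, m⁆⁆ = ⁅y, ⁅z, m⁆⁆
  rw [leibniz_lie z y m, ← lie_skew z y, hz, neg_zero, zero_lie, zero_add]

omit [CharZero K] in
theorem exists_neutral {y : g}
    (hy : IsNilpotent (LieAlgebra.ad K g y : Module.End K g)) : ∃ h : g, ⁅h, y⁆ = (2 : K) • y := by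
  have : y ∈ LinearMap.range (LieAlgebra.ad K g y : Module.End K g) := by
    refine mem_range_ad fun z hz => ?_
    rw [LieModule.traceForm_apply_apply K g g z y]
    exact (LinearMap.isNilpotent_trace_of_isNilpotent
      ((commute_ad hz).isNilpotent_mul_left hy)).eq_zero
  obtain ⟨x, hx⟩ := this
  change ⁅y, x⁆ = y at hx
  refine ⟨-((2 : K) • x), ?_⟩
  rw [neg_lie, smul_lie, ← lie_skew, hx, smul_neg, neg_neg]

end LAM

/-- A semilinear derivation moves a nilpotent element along its orbit. -/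
theorem exists_lie_eq {δ : SDer K g} (hδ : δ.IsLie) {y : g}
    (hy : IsNilpotent (LieAlgebra.ad K g y : Module.End K g)) : ∃ u : g, δ.D y = ⁅u, y⁆ := by
  have h1 : δ.D y ∈ LinearMap.range (LieAlgebra.ad K g y : Module.End K g) := by
    refine LAM.mem_range_ad fun z hz => ?_
    rw [LieModule.traceForm_apply_apply K g g z (δ.D y)]
    change LinearMap.trace K g ((LieAlgebra.ad K g z : Module.End K g) *
      (LieAlgebra.ad K g (δ.D y) : Module.End K g)) = 0
    rw [← comm_ad δ hδ y]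
    exact trace_mul_comm_of_isNilpotent δ _ _ hy (LAM.commute_ad hz)
  obtain ⟨x, hx⟩ := h1
  refine ⟨-x, ?_⟩
  rw [neg_lie, ← hx]
  change ⁅y, x⁆ = -⁅x, y⁆
  rw [lie_skew]

theorem theta_eq_killing {δ : SDer K g} (hδ : δ.IsLie) {y u : g} (hu : δ.D y = ⁅u, y⁆) {n : ℕ}
    (e : Basis (Fin n) K g) (he : SUT e (LieAlgebra.ad K g y)) :
    theta δ e (LieAlgebra.ad K g y) = killingForm K g y u := by
  obtain ⟨h, hh⟩ := LAM.exists_neutral (A6aux.isNilpotent_of_SUT e _ he)
  have h1 := trace_mul_comm_of_sl2 δ e (LieAlgebra.ad K g y : Module.End K g)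
    (LieAlgebra.ad K g h : Module.End K g) he (by
      refine LinearMap.ext fun m => ?_
      change ⁅h, ⁅y, m⁆⁆ - ⁅y, ⁅h, m⁆⁆ = (2 : K) • ⁅y, m⁆
      rw [leibniz_lie h y m, hh, smul_lie, add_sub_cancel_right])
  rw [comm_ad δ hδ y, hu] at h1
  have h2 : LinearMap.trace K g ((LieAlgebra.ad K g h : Module.End K g) *
      (LieAlgebra.ad K g ⁅u, y⁆ : Module.End K g)) = killingForm K g h ⁅u, y⁆ :=
    (LieModule.traceForm_apply_apply K g g h ⁅u, y⁆).symm
  have h3 : killingForm K g ⁅h, y⁆ u = killingForm K g h ⁅y, u⁆ :=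
    LieModule.traceForm_apply_lie_apply K g g h y u
  have h4 : ⁅u, y⁆ = -⁅y, u⁆ := (lie_skew u y).symm
  rw [h2, h4, map_neg, ← h3, hh, map_smul, LinearMap.smul_apply, smul_eq_mul] at h1
  have h5 : (2 : K) * killingForm K g y u = 2 * theta δ e (LieAlgebra.ad K g y) := by
    linear_combination -h1
  exact (mul_left_cancel₀ two_ne_zero h5).symm

/-- Additivity. -/
theorem lam_add {δ : SDer K g} (hδ : δ.IsLie) {a b u v w : g}
    (hnil : {c : K | IsNilpotent (LieAlgebra.ad K g (a + c • b) : Module.End K g)}.Infinite)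
    (ha : IsNilpotent (LieAlgebra.ad K g a : Module.End K g))
    (hab : IsNilpotent (LieAlgebra.ad K g (a + b) : Module.End K g))
    (hu : δ.D a = ⁅u, a⁆) (hv : δ.D b = ⁅v, b⁆) (hw : δ.D (a + b) = ⁅w, a + b⁆) :
    killingForm K g (a + b) w = killingForm K g a u + killingForm K g b v := by
  have hnil' : {c : K | IsNilpotent ((LieAlgebra.ad K g a : Module.End K g) +
      c • (LieAlgebra.ad K g b : Module.End K g))}.Infinite := by
    convert hnil using 3 with c
    rw [map_add, map_smul]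
  have hb : IsNilpotent (LieAlgebra.ad K g b : Module.End K g) :=
    (isNilpotent_line _ _ hnil').2
  obtain ⟨ea, hea⟩ := exists_SUT _ ha
  obtain ⟨eb, heb⟩ := exists_SUT _ hb
  obtain ⟨ey, hey⟩ := exists_SUT _ hab
  have hey' : SUT ey ((LieAlgebra.ad K g a : Module.End K g) +
      (LieAlgebra.ad K g b : Module.End K g)) := by
    rw [← map_add]; exact hey
  have h := theta_add δ _ _ hnil' ea eb ey hea heb hey'
  rw [theta_eq_killing hδ hu ea hea, theta_eq_killing hδ hv eb heb, ← map_add,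
    theta_eq_killing hδ hw ey hey] at h
  exact h

namespace LAM

omit [CharZero K] [FiniteDimensional K g] [LieAlgebra.IsKilling K g] in
theorem bracket_lift {δ δ' δ'' : SDer K g} (hδ : δ.IsLie) (hδ' : δ'.IsLie)
    (hδ'' : ∀ x : g, δ''.D x = δ.D (δ'.D x) - δ'.D (δ.D x)) {a u u' : g}
    (hu : δ.D a = ⁅u, a⁆) (hu' : δ'.D a = ⁅u', a⁆) :
    δ''.D a = ⁅δ.D u' - δ'.D u + ⁅u', u⁆, a⁆ := by
  rw [hδ'', hu, hu', hδ, hδ', hu, hu', add_lie, sub_lie, lie_lie]
  abel

omit [CharZero K] [LieAlgebra.IsKilling K g] in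
theorem killing_lift [CharZero K] {δ δ' : SDer K g} (hδ : δ.IsLie) (hδ' : δ'.IsLie)
    {a u u' : g} (hu : δ.D a = ⁅u, a⁆) (hu' : δ'.D a = ⁅u', a⁆) :
    killingForm K g a ⁅u, u'⁆ = killingForm K g a (δ.D u' - δ'.D u + ⁅u', u⁆) -
      (δ.d (killingForm K g a u') - δ'.d (killingForm K g a u)) := by
  have e1 : killingForm K g ⁅a, u⁆ u' = killingForm K g a ⁅u, u'⁆ :=
    LieModule.traceForm_apply_lie_apply K g g a u u'
  have e2 : killingForm K g ⁅a, u'⁆ u = killingForm K g a ⁅u', u⁆ :=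
    LieModule.traceForm_apply_lie_apply K g g a u' u
  have e3 : killingForm K g a ⁅u', u⁆ = -killingForm K g a ⁅u, u'⁆ := by
    rw [← lie_skew u' u, map_neg]
  have e4 : killingForm K g ⁅u, a⁆ u' = -killingForm K g a ⁅u, u'⁆ := by
    rw [← e1, ← lie_skew u a, map_neg, LinearMap.neg_apply]
  have e5 : killingForm K g ⁅u', a⁆ u = -killingForm K g a ⁅u', u⁆ := by
    rw [← e2, ← lie_skew u' a, map_neg, LinearMap.neg_apply]
  have e6 := killing_leib δ hδ a u'
  have e7 := killing_leib δ' hδ' a u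
  rw [hu, e4] at e6
  rw [hu', e5, e3] at e7
  rw [e6, e7, map_add, map_sub, e3]
  ring

end LAM

/-- Additivity of the symplectic forms. -/
theorem omega_add (S : Set (SDer K g)) (hS : ∀ δ ∈ S, δ.IsLie)
    (hcl : ∀ δ ∈ S, ∀ δ' ∈ S, ∃ δ'' ∈ S, ∀ x : g, δ''.D x = δ.D (δ'.D x) - δ'.D (δ.D x))
    {a b : g}
    (hnil : {c : K | IsNilpotent (LieAlgebra.ad K g (a + c • b) : Module.End K g)}.Infinite)
    (ha : IsNilpotent (LieAlgebra.ad K g a : Module.End K g))
    (hab : IsNilpotent (LieAlgebra.ad K g (a + b) : Module.End K g))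
    {δ δ' : SDer K g} (hδ : δ ∈ S) (hδ' : δ' ∈ S) {u v w u' v' w' : g}
    (hu : δ.D a = ⁅u, a⁆) (hv : δ.D b = ⁅v, b⁆) (hw : δ.D (a + b) = ⁅w, a + b⁆)
    (hu' : δ'.D a = ⁅u', a⁆) (hv' : δ'.D b = ⁅v', b⁆) (hw' : δ'.D (a + b) = ⁅w', a + b⁆) :
    killingForm K g (a + b) ⁅w, w'⁆ = killingForm K g a ⁅u, u'⁆ + killingForm K g b ⁅v, v'⁆ := by
  obtain ⟨δ'', hδ'', hD⟩ := hcl δ hδ δ' hδ'
  have h1 := lam_add (hS δ hδ) hnil ha hab hu hv hw
  have h2 := lam_add (hS δ' hδ') hnil ha hab hu' hv' hw'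
  have h3 := lam_add (hS δ'' hδ'') hnil ha hab
    (LAM.bracket_lift (hS δ hδ) (hS δ' hδ') hD hu hu')
    (LAM.bracket_lift (hS δ hδ) (hS δ' hδ') hD hv hv')
    (LAM.bracket_lift (hS δ hδ) (hS δ' hδ') hD hw hw')
  rw [LAM.killing_lift (hS δ hδ) (hS δ' hδ') hw hw', LAM.killing_lift (hS δ hδ) (hS δ' hδ') hu hu',
    LAM.killing_lift (hS δ hδ) (hS δ' hδ') hv hv', h1, h2, h3, map_add δ.d, map_add δ'.d]
  ring

end F80
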