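import Pool.Agent.H88.F80.Sat
import Pool.Agent.H88.F80.Lam
/-! Module CNT (MP_80e906_al): the dimension bound at a point of the zero fibre. -/
open Module TensorProduct
universe u
namespace F80

section lin
variable {K V W : Type*} [Field K] [AddCommGroup V] [Module K V] [FiniteDimensional K V]
  [AddCommGroup W] [Module K W]

/-- Rank-nullity for the restriction of a map to a subspace. -/
theorem cnt_finrank_map (f : V →ₗ[K] W) (A : Submodule K V) :
    finrank K (A.map f) + finrank K (A ⊓ LinearMap.ker f : Submodule K V) = finrank K A := by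
  have h := LinearMap.finrank_range_add_finrank_ker (f.domRestrict A)
  have h1 : LinearMap.range (f.domRestrict A) = A.map f := by
    rw [LinearMap.range_domRestrict]
  have h2 : finrank K (LinearMap.ker (f.domRestrict A)) =
      finrank K (A ⊓ LinearMap.ker f : Submodule K V) := by
    have h3 : (LinearMap.ker (f.domRestrict A)).map A.subtype = A ⊓ LinearMap.ker f := by
      ext x
      simp only [Submodule.mem_map, LinearMap.mem_ker, Submodule.subtype_apply, Submodule.mem_inf,
        Subtype.exists, exists_and_right, exists_eq_right, LinearMap.domRestrict_apply]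
      constructor
      · rintro ⟨h1, h2⟩
        exact ⟨h1, h2⟩
      · rintro ⟨h1, h2⟩
        exact ⟨h1, h2⟩
    rw [← h3, Submodule.finrank_map_subtype_eq]
  rw [← h1, ← h2]
  exact h

/-- Dimension of an isotropic subspace. -/
theorem cnt_isotropic (B : V →ₗ[K] V →ₗ[K] K) (U : Submodule K V)
    (hU : ∀ x ∈ U, ∀ y ∈ U, B x y = 0) :
    2 * finrank K U ≤ finrank K V + finrank K (LinearMap.ker B) := by
  have h1 := cnt_finrank_map B U
  have h2 : U.map B ≤ U.dualAnnihilator := by
    rintro _ ⟨x, hx, rfl⟩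
    rw [Submodule.mem_dualAnnihilator]
    exact fun y hy => hU x hx y hy
  have h3 : finrank K U + finrank K (U.dualAnnihilator : Submodule K (V →ₗ[K] K)) = finrank K V :=
    Subspace.finrank_add_finrank_dualAnnihilator_eq U
  have h4 : finrank K (U.map B) ≤ finrank K (U.dualAnnihilator : Submodule K (V →ₗ[K] K)) :=
    Submodule.finrank_mono h2
  have h5 : finrank K (U ⊓ LinearMap.ker B : Submodule K V) ≤ finrank K (LinearMap.ker B) :=
    Submodule.finrank_mono inf_le_right
  omega

/-- Dimension of a preimage. -/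
theorem cnt_comap [FiniteDimensional K W] (f : V →ₗ[K] W) (T : Submodule K W) :
    finrank K (T ⊔ LinearMap.range f : Submodule K W) + finrank K (T.comap f) =
      finrank K T + finrank K V := by
  have h1 := Submodule.finrank_sup_add_finrank_inf_eq T (LinearMap.range f)
  have h2 := cnt_finrank_map f (T.comap f)
  have h3 : (T.comap f).map f = T ⊓ LinearMap.range f := by
    rw [Submodule.map_comap_eq, inf_comm]
  have h4 : T.comap f ⊓ LinearMap.ker f = LinearMap.ker f := by
    apply inf_eq_right.mpr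
    intro x hx
    rw [LinearMap.mem_ker] at hx
    rw [Submodule.mem_comap, hx]
    exact T.zero_mem
  have h5 := LinearMap.finrank_range_add_finrank_ker f
  rw [h3, h4] at h2
  omega

theorem cnt_finrank_prod [FiniteDimensional K W] (p : Submodule K V) (q : Submodule K W) :
    finrank K (p.prod q : Submodule K (V × W)) = finrank K p + finrank K q := by
  have h1 : LinearMap.range (LinearMap.prodMap p.subtype q.subtype) = p.prod q := by
    ext ⟨x, y⟩
    simp only [LinearMap.mem_range, LinearMap.prodMap_apply, Submodule.subtype_apply, Prod.mk.injEq,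
      Prod.exists, Submodule.mem_prod]
    constructor
    · rintro ⟨a, b, rfl, rfl⟩
      exact ⟨a.2, b.2⟩
    · rintro ⟨h1, h2⟩
      exact ⟨⟨x, h1⟩, ⟨y, h2⟩, rfl, rfl⟩
  have h2 : Function.Injective (LinearMap.prodMap p.subtype q.subtype) := by
    rintro ⟨a, b⟩ ⟨a', b'⟩ h
    simp only [LinearMap.prodMap_apply, Submodule.subtype_apply, Prod.mk.injEq] at h
    exact Prod.ext (Subtype.ext h.1) (Subtype.ext h.2)
  rw [← h1, LinearMap.finrank_range_of_inj h2, Module.finrank_prod]

end lin


set_option linter.unusedSectionVars false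
section core
variable {E L : Type*} [Field E] [LieRing L] [LieAlgebra E L] [FiniteDimensional E L]
  [LieAlgebra.IsKilling E L]

/-- The kernel of `u ↦ ⁅u, a⁆`, as the kernel of `ad a`. -/
theorem cnt_ker_mem {a u : L} :
    u ∈ LinearMap.ker (LieAlgebra.ad E L a : Module.End E L) ↔ ⁅u, a⁆ = 0 := by
  rw [LinearMap.mem_ker, LieAlgebra.ad_apply, ← lie_skew, neg_eq_zero]

/-- The map `u ↦ ⁅u, a⁆`. -/
noncomputable def cbr (E : Type*) {L : Type*} [Field E] [LieRing L] [LieAlgebra E L] (a : L) :
    L →ₗ[E] L := -(LieAlgebra.ad E L a : Module.End E L)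

@[simp] theorem cbr_apply (a u : L) : cbr E a u = ⁅u, a⁆ := by
  simp [cbr]

theorem ker_cbr (a : L) :
    LinearMap.ker (cbr E a) = LinearMap.ker (LieAlgebra.ad E L a : Module.End E L) := by
  ext u
  rw [cnt_ker_mem, LinearMap.mem_ker, cbr_apply]

/-- The form `κ(a, ⁅u, u'⁆)`. -/
noncomputable def kform (E : Type*) {L : Type*} [Field E] [LieRing L] [LieAlgebra E L] 
    (a : L) : L →ₗ[E] L →ₗ[E] E :=
  (killingForm E L).compl₁₂ (LieAlgebra.ad E L a : Module.End E L) LinearMap.id

theorem kform_apply (a u v : L) : kform E a u v = killingForm E L a ⁅u, v⁆ := by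
  simp only [kform, LinearMap.compl₁₂_apply, LieAlgebra.ad_apply, LinearMap.id_apply]
  exact LieModule.traceForm_apply_lie_apply E L L a u v

theorem kform_skew (a u v : L) : kform E a u v = - kform E a v u := by
  rw [kform_apply, kform_apply, ← lie_skew, map_neg]

/-- invariance -/
theorem kform_eq (a u v : L) : kform E a u v = killingForm E L u ⁅v, a⁆ := by
  rw [kform_apply, LieModule.traceForm_comm E L L a, LieModule.traceForm_apply_lie_apply E L L]

theorem ker_kform (a : L) :
    LinearMap.ker (kform E a) = LinearMap.ker (LieAlgebra.ad E L a : Module.End E L) := by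
  ext u
  constructor
  · intro h
    rw [LinearMap.mem_ker] at h ⊢
    have h1 : killingForm E L ((LieAlgebra.ad E L a : Module.End E L) u) = 0 := by
      ext v
      have := LinearMap.congr_fun h v
      simpa [kform] using this
    have h2 : (LieAlgebra.ad E L a : Module.End E L) u ∈ LinearMap.ker (killingForm E L) := h1
    rw [LieAlgebra.IsKilling.ker_killingForm_eq_bot] at h2
    simpa using h2
  · intro h
    rw [LinearMap.mem_ker] at h ⊢
    ext v
    simp only [kform, LinearMap.compl₁₂_apply, h, map_zero, LinearMap.zero_apply]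

/-- The form on triples. -/
noncomputable def tform (E : Type*) {L : Type*} [Field E] [LieRing L] [LieAlgebra E L]
    (a b : L) : (L × L × L) →ₗ[E] (L × L × L) →ₗ[E] E :=
  (kform E a).compl₁₂ (LinearMap.fst E L (L × L)) (LinearMap.fst E L (L × L)) +
  (kform E b).compl₁₂ (LinearMap.fst E L L ∘ₗ LinearMap.snd E L (L × L))
    (LinearMap.fst E L L ∘ₗ LinearMap.snd E L (L × L)) -
  (kform E (a + b)).compl₁₂ (LinearMap.snd E L L ∘ₗ LinearMap.snd E L (L × L))
    (LinearMap.snd E L L ∘ₗ LinearMap.snd E L (L × L))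

theorem tform_apply (a b : L) (z z' : L × L × L) :
    tform E a b z z' = kform E a z.1 z'.1 + kform E b z.2.1 z'.2.1 -
      kform E (a + b) z.2.2 z'.2.2 := by
  simp [tform]

theorem tform_skew (a b : L) (z z' : L × L × L) :
    tform E a b z z' = - tform E a b z' z := by
  rw [tform_apply, tform_apply, kform_skew a, kform_skew b, kform_skew (a + b)]
  ring

theorem ker_tform_le (a b : L) :
    LinearMap.ker (tform E a b) ≤
      (LinearMap.ker (LieAlgebra.ad E L a : Module.End E L)).prod
        ((LinearMap.ker (LieAlgebra.ad E L b : Module.End E L)).prod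
          (LinearMap.ker (LieAlgebra.ad E L (a + b) : Module.End E L))) := by
  rintro ⟨u, v, w⟩ h
  rw [LinearMap.mem_ker] at h
  rw [← ker_kform, ← ker_kform, ← ker_kform]
  simp only [Submodule.mem_prod, LinearMap.mem_ker]
  refine ⟨?_, ?_, ?_⟩
  · ext x
    have := LinearMap.congr_fun h (x, 0, 0)
    simpa [tform_apply] using this
  · ext x
    have := LinearMap.congr_fun h (0, x, 0)
    simpa [tform_apply] using this
  · ext x
    have := LinearMap.congr_fun h (0, 0, x)
    simpa [tform_apply] using this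

/-- The linear algebra of the count. -/
theorem cnt_core {J : Type*} (a b : L) (u v w : J → L)
    (h1 : ∀ j, ⁅w j, a + b⁆ = ⁅u j, a⁆ + ⁅v j, b⁆)
    (hω : ∀ i j, killingForm E L (a + b) ⁅w i, w j⁆ =
      killingForm E L a ⁅u i, u j⁆ + killingForm E L b ⁅v i, v j⁆) :
    2 * finrank E (Submodule.span E (Set.range fun j => (⁅u j, a⁆, ⁅v j, b⁆)) :
        Submodule E (L × L)) +
      finrank E (LinearMap.ker (LieAlgebra.ad E L a : Module.End E L)) +
      finrank E (LinearMap.ker (LieAlgebra.ad E L b : Module.End E L)) +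
      finrank E (LinearMap.ker (LieAlgebra.ad E L (a + b) : Module.End E L)) ≤
    finrank E L + 2 * finrank E ((Submodule.span E (Set.range fun j => (⁅u j, a⁆, ⁅v j, b⁆))).comap
      ((cbr E a).prod (cbr E b)) : Submodule E L) := by
  set ka := LinearMap.ker (LieAlgebra.ad E L a : Module.End E L)
  set kb := LinearMap.ker (LieAlgebra.ad E L b : Module.End E L)
  set kc := LinearMap.ker (LieAlgebra.ad E L (a + b) : Module.End E L)
  set T := Submodule.span E (Set.range fun j => (⁅u j, a⁆, ⁅v j, b⁆))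
  set ρ := (cbr E a).prod (cbr E b)
  set U1 : Submodule E (L × L × L) := Submodule.span E (Set.range fun j => (u j, v j, w j))
  set dg : L →ₗ[E] (L × L × L) := LinearMap.id.prod (LinearMap.id.prod LinearMap.id)
  set U2 : Submodule E (L × L × L) := LinearMap.range dg
  set U3 : Submodule E (L × L × L) := ka.prod (kb.prod kc)
  set U : Submodule E (L × L × L) := U1 ⊔ U2 ⊔ U3
  -- the linear condition
  have hlin : ∀ z ∈ U, ⁅z.2.2, a + b⁆ = ⁅z.1, a⁆ + ⁅z.2.1, b⁆ := by
    let Λ : (L × L × L) →ₗ[E] L :=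
      cbr E (a + b) ∘ₗ LinearMap.snd E L L ∘ₗ LinearMap.snd E L (L × L) -
      (cbr E a ∘ₗ LinearMap.fst E L (L × L) +
        cbr E b ∘ₗ LinearMap.fst E L L ∘ₗ LinearMap.snd E L (L × L))
    have hΛ : ∀ z, Λ z = ⁅z.2.2, a + b⁆ - (⁅z.1, a⁆ + ⁅z.2.1, b⁆) := by
      intro z
      simp [Λ]
    have hU : U ≤ LinearMap.ker Λ := by
      refine sup_le (sup_le ?_ ?_) ?_
      · rw [Submodule.span_le]
        rintro _ ⟨j, rfl⟩
        simp only [SetLike.mem_coe, LinearMap.mem_ker, hΛ]
        rw [h1 j, sub_self]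
      · rintro _ ⟨x, rfl⟩
        simp only [LinearMap.mem_ker, hΛ]
        simp [dg]
      · rintro ⟨x, y, z⟩ h
        simp only [U3, Submodule.mem_prod, ka, kb, kc, cnt_ker_mem] at h
        simp only [LinearMap.mem_ker, hΛ, h.1, h.2.1, h.2.2]
        simp
    intro z hz
    have := hU hz
    rw [LinearMap.mem_ker, hΛ, sub_eq_zero] at this
    exact this
  -- isotropy
  have hker3 : ∀ z ∈ U3, tform E a b z = 0 := by
    rintro ⟨x, y, z⟩ h
    simp only [U3, ka, kb, kc, Submodule.mem_prod] at h
    rw [← ker_kform, ← ker_kform, ← ker_kform, LinearMap.mem_ker, LinearMap.mem_ker,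
      LinearMap.mem_ker] at h
    ext z' 
    · simp [tform_apply, h.1]
    · simp [tform_apply, h.2.1]
    · simp [tform_apply, h.2.2]
  have hdiag : ∀ x : L, ∀ z ∈ U, tform E a b (dg x) z = 0 := by
    intro x z hz
    rw [tform_apply, kform_eq, kform_eq, kform_eq]
    have h2 := hlin z hz
    have h3 : (dg x).1 = x ∧ (dg x).2.1 = x ∧ (dg x).2.2 = x := ⟨rfl, rfl, rfl⟩
    rw [h3.1, h3.2.1, h3.2.2, h2, map_add]
    ring
  have hiso : ∀ z ∈ U, ∀ z' ∈ U, tform E a b z z' = 0 := by
    have hU1 : ∀ i, ∀ z' ∈ U, tform E a b (u i, v i, w i) z' = 0 := by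
      intro i
      have : U ≤ LinearMap.ker (tform E a b (u i, v i, w i)) := by
        refine sup_le (sup_le ?_ ?_) ?_
        · rw [Submodule.span_le]
          rintro _ ⟨j, rfl⟩
          simp only [SetLike.mem_coe, LinearMap.mem_ker, tform_apply, kform_apply]
          rw [hω i j]
          ring
        · rintro _ ⟨x, rfl⟩
          rw [LinearMap.mem_ker, tform_skew, hdiag x, neg_zero]
          exact Submodule.mem_sup_left (Submodule.mem_sup_left
            (Submodule.subset_span ⟨i, rfl⟩))
        · intro z hz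
          rw [LinearMap.mem_ker, tform_skew, hker3 z hz, LinearMap.zero_apply, neg_zero]
      intro z' hz'
      exact this hz'
    intro z hz z' hz'
    have : U ≤ LinearMap.ker ((tform E a b).flip z') := by
      refine sup_le (sup_le ?_ ?_) ?_
      · rw [Submodule.span_le]
        rintro _ ⟨j, rfl⟩
        simp only [SetLike.mem_coe, LinearMap.mem_ker, LinearMap.flip_apply]
        exact hU1 j z' hz'
      · rintro _ ⟨x, rfl⟩
        rw [LinearMap.mem_ker, LinearMap.flip_apply]
        exact hdiag x z' hz'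
      · intro z hz
        rw [LinearMap.mem_ker, LinearMap.flip_apply, hker3 z hz, LinearMap.zero_apply]
    exact this hz
  have e1 := cnt_isotropic (tform E a b) U hiso
  have e2 : finrank E (LinearMap.ker (tform E a b)) ≤
      finrank E ka + (finrank E kb + finrank E kc) := by
    have e2 := Submodule.finrank_mono (ker_tform_le (E := E) a b)
    rw [cnt_finrank_prod, cnt_finrank_prod] at e2
    exact e2
  -- the dimension of `U`
  let ψ : (L × L × L) →ₗ[E] (L × L) :=
    (cbr E a ∘ₗ LinearMap.fst E L (L × L)).prod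
      (cbr E b ∘ₗ LinearMap.fst E L L ∘ₗ LinearMap.snd E L (L × L))
  have hψ : ∀ z, ψ z = (⁅z.1, a⁆, ⁅z.2.1, b⁆) := by
    intro z; simp [ψ]
  have e3 := cnt_finrank_map ψ U
  have e4 : T ⊔ LinearMap.range ρ ≤ U.map ψ := by
    refine sup_le ?_ ?_
    · rw [Submodule.span_le]
      rintro _ ⟨j, rfl⟩
      refine ⟨(u j, v j, w j), Submodule.mem_sup_left (Submodule.mem_sup_left
            (Submodule.subset_span ⟨j, rfl⟩)), ?_⟩
      rw [hψ]
    · rintro _ ⟨x, rfl⟩
      refine ⟨dg x, Submodule.mem_sup_left (Submodule.mem_sup_right ⟨x, rfl⟩), ?_⟩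
      rw [hψ]
      simp [ρ, dg]
  have e5 : U3 ≤ U ⊓ LinearMap.ker ψ := by
    refine le_inf le_sup_right ?_
    rintro ⟨x, y, z⟩ h
    simp only [U3, ka, kb, kc, Submodule.mem_prod, cnt_ker_mem] at h
    rw [LinearMap.mem_ker, hψ]
    simp [h.1, h.2.1]
  have e6 := Submodule.finrank_mono e4
  have e7 := Submodule.finrank_mono e5
  have e8 := cnt_comap ρ T
  have e9 : finrank E (L × L × L) = 3 * finrank E L := by
    rw [Module.finrank_prod, Module.finrank_prod]; ring
  have e10 : finrank E U3 = finrank E ka + (finrank E kb + finrank E kc) := by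
    rw [cnt_finrank_prod, cnt_finrank_prod]
  omega

/-- Passing from `A ≤ A_a ⊓ A_b` to the final inequality. -/
theorem cnt_final {J : Type*} (a b : L) (u v w : J → L)
    (h1 : ∀ j, ⁅w j, a + b⁆ = ⁅u j, a⁆ + ⁅v j, b⁆)
    (hω : ∀ i j, killingForm E L (a + b) ⁅w i, w j⁆ =
      killingForm E L a ⁅u i, u j⁆ + killingForm E L b ⁅v i, v j⁆)
    (Wa Wb R H : Submodule E L) (hRH : H ⊔ R = ⊤)
    (hWa : ∀ j, ⁅u j, a⁆ ∈ Wa) (hWb : ∀ j, ⁅v j, b⁆ ∈ Wb)
    (hR : ∀ y ∈ R, ⁅y, a⁆ ∈ Wa) (hH : ∀ y ∈ H, ⁅y, b⁆ ∈ Wb)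
    (ha : 2 * finrank E Wa + finrank E (LinearMap.ker (LieAlgebra.ad E L a : Module.End E L)) ≤
      finrank E L)
    (hb : 2 * finrank E Wb + finrank E (LinearMap.ker (LieAlgebra.ad E L b : Module.End E L)) ≤
      finrank E L) :
    2 * finrank E (Submodule.span E (Set.range fun j => (⁅u j, a⁆, ⁅v j, b⁆)) :
        Submodule E (L × L)) +
      finrank E (LinearMap.ker (LieAlgebra.ad E L (a + b) : Module.End E L)) ≤
    finrank E L := by
  have e1 := cnt_core a b u v w h1 hω
  have e2 := cnt_comap (cbr E a) Wa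
  have e3 := cnt_comap (cbr E b) Wb
  have e4 := Submodule.finrank_mono (le_sup_right : LinearMap.range (cbr E a) ≤
    Wa ⊔ LinearMap.range (cbr E a))
  have e5 := Submodule.finrank_mono (le_sup_right : LinearMap.range (cbr E b) ≤
    Wb ⊔ LinearMap.range (cbr E b))
  have e6 := LinearMap.finrank_range_add_finrank_ker (cbr E a)
  have e7 := LinearMap.finrank_range_add_finrank_ker (cbr E b)
  rw [ker_cbr] at e6 e7
  have e8 := Submodule.finrank_sup_add_finrank_inf_eq (Wa.comap (cbr E a)) (Wb.comap (cbr E b))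
  have e9 : Wa.comap (cbr E a) ⊔ Wb.comap (cbr E b) = ⊤ := by
    rw [eq_top_iff, ← hRH]
    refine sup_le ?_ ?_
    · intro y hy
      refine Submodule.mem_sup_right ?_
      rw [Submodule.mem_comap, cbr_apply]
      exact hH y hy
    · intro y hy
      refine Submodule.mem_sup_left ?_
      rw [Submodule.mem_comap, cbr_apply]
      exact hR y hy
  rw [e9, finrank_top] at e8
  have e10 : (Submodule.span E (Set.range fun j => (⁅u j, a⁆, ⁅v j, b⁆))).comap
      ((cbr E a).prod (cbr E b)) ≤ Wa.comap (cbr E a) ⊓ Wb.comap (cbr E b) := by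
    intro y hy
    have hT : Submodule.span E (Set.range fun j => (⁅u j, a⁆, ⁅v j, b⁆)) ≤ Wa.prod Wb := by
      rw [Submodule.span_le]
      rintro _ ⟨j, rfl⟩
      exact ⟨hWa j, hWb j⟩
    exact hT hy
  have e11 := Submodule.finrank_mono e10
  omega

end core

theorem zero_isLie {K L : Type*} [Field K] [LieRing L] [LieAlgebra K L] :
    (SDer.zero : SDer K L).IsLie := by
  intro x y
  simp

theorem const_comm {k E L : Type*} [Field k] [Field E] [Algebra k E] [AddCommGroup L]
    [Module k L] (D D' : Derivation k E E) (x : E ⊗[k] L) :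
    (SDer.const ⁅D, D'⁆ : SDer E (E ⊗[k] L)).D x =
      (SDer.const D).D ((SDer.const D').D x) - (SDer.const D').D ((SDer.const D).D x) := by
  induction x using TensorProduct.induction_on with
  | zero => simp
  | tmul e m =>
    simp only [SDer.const_tmul, Derivation.commutator_apply, TensorProduct.sub_tmul]
  | add x y hx hy =>
    simp only [map_add, hx, hy]
    abel

theorem dim_bound {k : Type u} [Field k] [CharZero k] {g : Type u} [LieRing g]
    [LieAlgebra k g] [FiniteDimensional k g] [LieAlgebra.IsKilling k g]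
    (h r : LieSubalgebra k g) (hhr : h.toSubmodule ⊔ r.toSubmodule = ⊤)
    {wh wr : g} (hwh : RR k wh) (hwr : RR k wr)
    (hh : h.toSubmodule ⊔ bor k wh = ⊤) (hr : r.toSubmodule ⊔ bor k wr = ⊤)
    {E : Type u} [Field E] [Algebra k E] (a b : E ⊗[k] g)
    (ha : ∀ y ∈ r, killingForm E (E ⊗[k] g) a (1 ⊗ₜ[k] y) = 0)
    (hb : ∀ y ∈ h, killingForm E (E ⊗[k] g) b (1 ⊗ₜ[k] y) = 0)
    (hnil : {c : E | IsNilpotent (LieAlgebra.ad E (E ⊗[k] g) (a + c • b) :
      Module.End E (E ⊗[k] g))}.Infinite)
    {m : ℕ} (D : Fin m → Derivation k E E)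
    (hD : LinearIndependent E (fun j => ((SDer.const (D j)).D a, (SDer.const (D j)).D b))) :
    2 * m + finrank E (LinearMap.ker (LieAlgebra.ad E (E ⊗[k] g) (a + b) :
      Module.End E (E ⊗[k] g))) ≤ finrank k g := by
  have : CharZero E := charZero_of_injective_algebraMap (algebraMap k E).injective
  have : LieAlgebra.IsKilling E (E ⊗[k] g) := isKilling_baseChange E
  -- nilpotency
  have hset : {c : E | IsNilpotent ((LieAlgebra.ad E (E ⊗[k] g) a : Module.End E (E ⊗[k] g)) +
      c • (LieAlgebra.ad E (E ⊗[k] g) b : Module.End E (E ⊗[k] g)))}.Infinite := by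
    simpa only [map_add, map_smul] using hnil
  obtain ⟨hn, hnb⟩ := isNilpotent_line _ _ hset
  have hna : IsNilpotent (LieAlgebra.ad E (E ⊗[k] g) a : Module.End E (E ⊗[k] g)) := by
    simpa using hn 0
  have hnab : IsNilpotent (LieAlgebra.ad E (E ⊗[k] g) (a + b) : Module.End E (E ⊗[k] g)) := by
    simpa [map_add] using hn 1
  -- the derivations
  have hLie : ∀ D : Derivation k E E, (SDer.const D : SDer E (E ⊗[k] g)).IsLie := by
    intro D
    exact SDer.IsLie.baseChange E zero_isLie _ _
  choose u hu using fun D : Derivation k E E => exists_lie_eq (hLie D) hna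
  choose v hv using fun D : Derivation k E E => exists_lie_eq (hLie D) hnb
  choose w hw using fun D : Derivation k E E => exists_lie_eq (hLie D) hnab
  have h1 : ∀ D, ⁅w D, a + b⁆ = ⁅u D, a⁆ + ⁅v D, b⁆ := by
    intro D
    rw [← hu, ← hv, ← hw, map_add]
  have hω : ∀ D D', killingForm E (E ⊗[k] g) (a + b) ⁅w D, w D'⁆ =
      killingForm E (E ⊗[k] g) a ⁅u D, u D'⁆ + killingForm E (E ⊗[k] g) b ⁅v D, v D'⁆ := by
    intro D D'
    refine omega_add {δ | ∃ D : Derivation k E E, δ = SDer.const D} ?_ ?_ hnil hna hnab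
      ⟨D, rfl⟩ ⟨D', rfl⟩ (hu D) (hv D) (hw D) (hu D') (hv D') (hw D')
    · rintro _ ⟨D, rfl⟩
      exact hLie D
    · rintro _ ⟨D, rfl⟩ _ ⟨D', rfl⟩
      exact ⟨_, ⟨⁅D, D'⁆, rfl⟩, fun x => const_comm D D' x⟩
  obtain ⟨Gr, hGr⟩ := exists_IG hwr
  obtain ⟨Gh, hGh⟩ := exists_IG hwh
  have sa := sat_bound Gr r (by rw [hGr]; exact hr) a ha hna
  have sb := sat_bound Gh h (by rw [hGh]; exact hh) b hb hnb
  have hfin : finrank E (E ⊗[k] g) = finrank k g := Module.finrank_baseChange
  rw [← hfin] at sa sb ⊢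
  have key := cnt_final a b u v w h1 hω _ _ (r.toSubmodule.baseChange E)
    (h.toSubmodule.baseChange E) ?_ ?_ ?_ ?_ ?_ sa sb
  · refine le_trans ?_ key
    have h2 := finrank_span_eq_card hD
    rw [Fintype.card_fin] at h2
    have h3 : Submodule.span E (Set.range fun j => ((SDer.const (D j)).D a,
        (SDer.const (D j)).D b)) ≤
        Submodule.span E (Set.range fun j => (⁅u j, a⁆, ⁅v j, b⁆)) := by
      apply Submodule.span_mono
      rintro _ ⟨j, rfl⟩
      exact ⟨D j, by simp only [hu, hv]⟩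
    have h4 := Submodule.finrank_mono h3
    rw [h2] at h4
    omega
  · rw [← baseChange_sup, hhr, Submodule.baseChange_top]
  · intro j
    refine Submodule.subset_span (Or.inl ⟨j, (hu j).symm⟩)
  · intro j
    refine Submodule.subset_span (Or.inl ⟨j, (hv j).symm⟩)
  · intro y hy
    have : r.toSubmodule.baseChange E ≤ (Submodule.span E
        ({z | ∃ D : Derivation k E E, z = (SDer.const D).D a} ∪
          {z | ∃ y ∈ r, z = ⁅(1 ⊗ₜ[k] y : E ⊗[k] g), a⁆}) : Submodule E (E ⊗[k] g)).comap
            (cbr E a) := by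
      rw [Submodule.baseChange_eq_span, Submodule.span_le]
      rintro _ ⟨y, hy, rfl⟩
      simp only [SetLike.mem_coe, Submodule.mem_comap, cbr_apply]
      exact Submodule.subset_span (Or.inr ⟨y, hy, rfl⟩)
    simpa only [Submodule.mem_comap, cbr_apply] using this hy
  · intro y hy
    have : h.toSubmodule.baseChange E ≤ (Submodule.span E
        ({z | ∃ D : Derivation k E E, z = (SDer.const D).D b} ∪
          {z | ∃ y ∈ h, z = ⁅(1 ⊗ₜ[k] y : E ⊗[k] g), b⁆}) : Submodule E (E ⊗[k] g)).comap
            (cbr E b) := by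
      rw [Submodule.baseChange_eq_span, Submodule.span_le]
      rintro _ ⟨y, hy, rfl⟩
      simp only [SetLike.mem_coe, Submodule.mem_comap, cbr_apply]
      exact Submodule.subset_span (Or.inr ⟨y, hy, rfl⟩)
    simpa only [Submodule.mem_comap, cbr_apply] using this hy

/-- The form used for the zero fibre. -/
theorem zero_bound {k : Type u} [Field k] [CharZero k] {g : Type u} [LieRing g]
    [LieAlgebra k g] [FiniteDimensional k g] [LieAlgebra.IsKilling k g]
    (h r : LieSubalgebra k g) (hhr : h.toSubmodule ⊔ r.toSubmodule = ⊤)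
    {wh wr : g} (hwh : RR k wh) (hwr : RR k wr)
    (hh : h.toSubmodule ⊔ bor k wh = ⊤) (hr : r.toSubmodule ⊔ bor k wr = ⊤)
    {E : Type u} [Field E] [Algebra k E] (a b : E ⊗[k] g)
    (ha : ∀ y ∈ r, killingForm E (E ⊗[k] g) a (1 ⊗ₜ[k] y) = 0)
    (hb : ∀ y ∈ h, killingForm E (E ⊗[k] g) b (1 ⊗ₜ[k] y) = 0)
    (hnil : {c : E | IsNilpotent (LieAlgebra.ad E (E ⊗[k] g) (a + c • b) :
      Module.End E (E ⊗[k] g))}.Infinite)
    {ι : Type*} [Finite ι] (bs : Basis ι k g) {m : ℕ} (z : Fin m → E)
    (hz : AlgebraicIndependent k z)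
    (hza : ∀ j, IsAlgebraic (IntermediateField.adjoin k
      (Set.range fun i => (bs.baseChange E).repr (a + b) i)) (z j)) :
    2 * m + finrank E (LinearMap.ker (LieAlgebra.ad E (E ⊗[k] g) (a + b) :
      Module.End E (E ⊗[k] g))) ≤ finrank k g := by
  obtain ⟨D, hD⟩ := exists_independent_derivations
    (fun i => (bs.baseChange E).repr (a + b) i) z hz hza
  refine dim_bound h r hhr hwh hwr hh hr a b ha hb hnil D ?_
  -- coordinates of the derivative
  have hc : ∀ (D : Derivation k E E) (x : E ⊗[k] g) (i : ι),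
      (bs.baseChange E).repr ((SDer.const D).D x) i = D ((bs.baseChange E).repr x i) := by
    intro D x i
    induction x using TensorProduct.induction_on with
    | zero => simp
    | tmul e m =>
      rw [SDer.const_tmul]
      simp [Algebra.smul_def, mul_comm]
    | add x y hx hy =>
      simp only [map_add, Finsupp.add_apply, hx, hy]
  let φ : ((E ⊗[k] g) × (E ⊗[k] g)) →ₗ[E] (ι → E) :=
    LinearMap.pi fun i => ((Finsupp.lapply i : (ι →₀ E) →ₗ[E] E) ∘ₗ
      ((bs.baseChange E).repr : (E ⊗[k] g) →ₗ[E] (ι →₀ E))) ∘ₗ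
      (LinearMap.fst E _ _ + LinearMap.snd E _ _)
  refine LinearIndependent.of_comp φ ?_
  convert hD using 1
  funext j i
  simp only [φ, Function.comp_apply, LinearMap.pi_apply, LinearMap.comp_apply,
    LinearMap.add_apply, LinearMap.fst_apply, LinearMap.snd_apply, Finsupp.lapply_apply,
    LinearEquiv.coe_coe]
  rw [← map_add, hc]

end F80
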