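import Pool.Agent.H88.F80.Grad
/-! Matrices of adjoint endomorphisms in a homogeneous basis (MP_80e906_al). -/
open Module TensorProduct
namespace F80

section
variable {k g : Type*} [Field k] [LieRing g] [LieAlgebra k g] {n : ℕ} (G : IG k g n)

/-- The matrix of `ad (∑ η i ⊗ v i)`. -/
noncomputable def IG.adM {A : Type*} [CommRing A] [Algebra k A] (η : Fin n → A) :
    Matrix (Fin n) (Fin n) A :=
  Matrix.of fun l j => ∑ i, η i * algebraMap k A (G.v.repr ⁅G.v i, G.v j⁆ l)

theorem IG.adM_apply {A : Type*} [CommRing A] [Algebra k A] (η : Fin n → A) (l j : Fin n) :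
    G.adM η l j = ∑ i, η i * algebraMap k A (G.v.repr ⁅G.v i, G.v j⁆ l) := rfl

theorem IG.adM_map {A B : Type*} [CommRing A] [Algebra k A] [CommRing B] [Algebra k B]
    (f : A →ₐ[k] B) (η : Fin n → A) : (G.adM η).map f = G.adM (fun i => f (η i)) := by
  ext l j
  simp [IG.adM, map_sum]

theorem IG.lie_tmul {E : Type*} [Field E] [Algebra k E] (x : E ⊗[k] g) (j l : Fin n) :
    (G.v.baseChange E).repr ⁅x, (1 ⊗ₜ[k] G.v j : E ⊗[k] g)⁆ l =
      G.adM (fun i => (G.v.baseChange E).repr x i) l j := by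
  classical
  have hx : x = ∑ i, (G.v.baseChange E).repr x i • (G.v.baseChange E) i :=
    ((G.v.baseChange E).sum_repr x).symm
  conv_lhs => rw [hx]
  rw [sum_lie, map_sum, Finsupp.finsetSum_apply]
  rw [IG.adM_apply]
  apply Finset.sum_congr rfl
  intro i _
  rw [smul_lie, map_smul, Finsupp.smul_apply, Basis.baseChange_apply,
    LieAlgebra.ExtendScalars.bracket_tmul, Basis.baseChange_repr_tmul, smul_eq_mul, one_mul,
    Algebra.smul_def, mul_one]

theorem IG.toMatrix_ad {E : Type*} [Field E] [Algebra k E] (x : E ⊗[k] g) :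
    LinearMap.toMatrix (G.v.baseChange E) (G.v.baseChange E)
      (LieAlgebra.ad E (E ⊗[k] g) x : Module.End E (E ⊗[k] g)) =
      G.adM (fun i => (G.v.baseChange E).repr x i) := by
  ext l j
  rw [LinearMap.toMatrix_apply, Basis.baseChange_apply, LieAlgebra.ad_apply, IG.lie_tmul]

theorem IG.isNilpotent_iff {E : Type*} [Field E] [Algebra k E] (x : E ⊗[k] g) :
    IsNilpotent (LieAlgebra.ad E (E ⊗[k] g) x : Module.End E (E ⊗[k] g)) ↔
      IsNilpotent (G.adM (fun i => (G.v.baseChange E).repr x i)) := by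
  rw [← G.toMatrix_ad]
  exact (IsNilpotent.map_iff (f := LinearMap.toMatrixAlgEquiv (G.v.baseChange E))
    (LinearMap.toMatrixAlgEquiv (G.v.baseChange E)).injective).symm

theorem IG.finrank_ker {E : Type*} [Field E] [Algebra k E] (x : E ⊗[k] g) :
    (G.adM (fun i => (G.v.baseChange E).repr x i)).rank +
      finrank E (LinearMap.ker (LieAlgebra.ad E (E ⊗[k] g) x : Module.End E (E ⊗[k] g))) =
      n := by
  rw [← G.toMatrix_ad]
  have h1 : finrank E (E ⊗[k] g) = n := by
    rw [finrank_eq_card_basis (G.v.baseChange E), Fintype.card_fin]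
  have : FiniteDimensional E (E ⊗[k] g) := (G.v.baseChange E).finiteDimensional_of_finite
  have h2 := LinearMap.finrank_range_add_finrank_ker
    (LieAlgebra.ad E (E ⊗[k] g) x : Module.End E (E ⊗[k] g))
  rw [h1] at h2
  refine Eq.trans ?_ h2
  congr 1
  rw [Matrix.rank_eq_finrank_range_toLin _ (G.v.baseChange E) (G.v.baseChange E),
    Matrix.toLin_toMatrix]

end
end F80
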