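import Mathlib
/-! Algebraic independence of the shifted coordinates (MP_80e906_al). -/
open Module
namespace F80

/-- The exponent map `(i, α) ↦ (i + ⟨a, α⟩, α)`. -/
noncomputable def expoMap {d : ℕ} (a : Fin d → ℕ) :
    (Option (Fin d) →₀ ℕ) →+ (Option (Fin d) →₀ ℕ) where
  toFun m := m + Finsupp.single none (∑ j, a j * m (some j))
  map_zero' := by simp
  map_add' m m' := by
    simp only [Finsupp.coe_add, Pi.add_apply, mul_add, Finset.sum_add_distrib,
      Finsupp.single_add]
    abel

theorem expoMap_injective {d : ℕ} (a : Fin d → ℕ) : Function.Injective (expoMap a) := by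
  intro m m' h
  have h1 : ∀ j, m (some j) = m' (some j) := by
    intro j
    have := DFunLike.congr_fun h (some j)
    simpa [expoMap] using this
  have h2 : m none = m' none := by
    have := DFunLike.congr_fun h none
    simp only [expoMap, AddMonoidHom.coe_mk, ZeroHom.coe_mk, Finsupp.coe_add, Pi.add_apply,
      Finsupp.single_eq_same, h1] at this
    omega
  ext o
  cases o with
  | none => exact h2
  | some j => exact h1 j

theorem algebraicIndependent_shift {k E : Type*} [Field k] [Field E] [Algebra k E] {d : ℕ}
    (T : Fin d → E) (hT : AlgebraicIndependent k T) (a : Fin d → ℕ) :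
    AlgebraicIndependent k (fun o : Option (Fin d) =>
      o.elim (Polynomial.X : Polynomial E)
        (fun j => Polynomial.X ^ a j * Polynomial.C (T j))) := by
  have h0 : AlgebraicIndependent k (fun o : Option (Fin d) =>
      o.elim (Polynomial.X : Polynomial E) (fun j => Polynomial.C (T j))) := by
    have h1 : AlgebraicIndependent k (fun j => Polynomial.C (T j) : Fin d → Polynomial E) := by
      have := hT.map' (f := (Polynomial.CAlgHom (R := k) (A := E))) Polynomial.C_injective
      exact this
    rw [h1.option_iff_transcendental]
    have hc : ∀ r : Algebra.adjoin k (Set.range fun j => (Polynomial.C (T j) : Polynomial E)),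
        Polynomial.C ((r : Polynomial E).eval 0) = (r : Polynomial E) := by
      intro r
      have hr : (r : Polynomial E) ∈ (Polynomial.CAlgHom (R := k) (A := E)).range := by
        have : Algebra.adjoin k (Set.range fun j => (Polynomial.C (T j) : Polynomial E)) ≤
            (Polynomial.CAlgHom (R := k) (A := E)).range := by
          rw [Algebra.adjoin_le_iff]
          rintro _ ⟨j, rfl⟩
          exact ⟨T j, rfl⟩
        exact this r.2
      obtain ⟨e, he⟩ := hr
      rw [← he]
      simp [Polynomial.CAlgHom]
    rintro ⟨p, hp, hp0⟩
    have h2 : Transcendental E (Polynomial.X : Polynomial E) := Polynomial.transcendental_X E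
    let φ : (Algebra.adjoin k (Set.range fun j => (Polynomial.C (T j) : Polynomial E))) →+* E :=
      (Polynomial.evalRingHom (0 : E)).comp
        (algebraMap _ (Polynomial E))
    have hφ : ∀ r, Polynomial.C (φ r) = (r : Polynomial E) := fun r => hc r
    have hinj : Function.Injective φ := by
      intro r r' hrr
      apply Subtype.ext
      rw [← hφ r, ← hφ r', hrr]
    apply h2
    refine ⟨p.map φ, ?_, ?_⟩
    · rw [Ne, Polynomial.map_eq_zero_iff hinj]
      exact hp
    · rw [Polynomial.aeval_def, Polynomial.eval₂_map]
      rw [Polynomial.aeval_def] at hp0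
      rw [← hp0]
      congr 1
      ext1 r
      exact hφ r
  let Ψ : MvPolynomial (Option (Fin d)) k →ₐ[k] MvPolynomial (Option (Fin d)) k :=
    AddMonoidAlgebra.mapDomainAlgHom k k (expoMap a)
  have hΨ : ∀ o, Ψ (MvPolynomial.X o) = MvPolynomial.monomial (expoMap a (Finsupp.single o 1)) 1 := by
    intro o
    exact AddMonoidAlgebra.mapDomain_single
  have hΨi : Function.Injective Ψ := AddMonoidAlgebra.mapDomain_injective (expoMap_injective a)
  have h3 : (MvPolynomial.aeval (fun o : Option (Fin d) =>
      o.elim (Polynomial.X : Polynomial E)
        (fun j => Polynomial.X ^ a j * Polynomial.C (T j))) :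
        MvPolynomial (Option (Fin d)) k →ₐ[k] Polynomial E) =
      (MvPolynomial.aeval (fun o : Option (Fin d) =>
        o.elim (Polynomial.X : Polynomial E) (fun j => Polynomial.C (T j)))).comp Ψ := by
    apply MvPolynomial.algHom_ext
    intro o
    rw [AlgHom.comp_apply, hΨ, MvPolynomial.aeval_monomial, MvPolynomial.aeval_X, map_one, one_mul]
    cases o with
    | none =>
      have : expoMap a (Finsupp.single none 1) = Finsupp.single none 1 := by
        ext o
        simp [expoMap]
      rw [this, Finsupp.prod_single_index (by simp)]
      simp
    | some j =>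
      have : expoMap a (Finsupp.single (some j) 1) =
          Finsupp.single (some j) 1 + Finsupp.single none (a j) := by
        have h5 : ∑ i, a i * (Finsupp.single (some j) 1 : Option (Fin d) →₀ ℕ) (some i) = a j := by
          rw [Finset.sum_eq_single j]
          · simp
          · intro b _ hb
            rw [Finsupp.single_eq_of_ne (by simpa using hb)]
            simp
          · simp
        change (Finsupp.single (some j) 1 + Finsupp.single none _ : Option (Fin d) →₀ ℕ) = _
        rw [h5]
      rw [this, Finsupp.prod_add_index' (by simp) (by intros; rw [pow_add]),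
        Finsupp.prod_single_index (by simp), Finsupp.prod_single_index (by simp)]
      simp only [Option.elim, pow_one]
      exact mul_comm _ _
  rw [algebraicIndependent_iff_injective_aeval, h3]
  exact (algebraicIndependent_iff_injective_aeval.1 h0).comp hΨi

end F80
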