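import Mathlib
/-! Module KRU (MP_80e906_al): a prime over a nonunit of a finitely generated domain, dropping the
transcendence degree by at most one. -/
open Module
namespace F80

/-- The variables other than one occurring in `f` are algebraically independent modulo `f`. -/
lemma mem_span_of_degreeOf {k : Type*} [Field k] {e : ℕ} (f : MvPolynomial (Fin e) k) (j : Fin e)
    (hj : 0 < f.degreeOf j) (P : MvPolynomial (Fin e) k) (hP : P.degreeOf j = 0)
    (h : P ∈ Ideal.span {f}) : P = 0 := by
  by_contra hne
  obtain ⟨R, rfl⟩ := Ideal.mem_span_singleton.1 h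
  rw [MvPolynomial.degreeOf_mul_eq (left_ne_zero_of_mul hne) (right_ne_zero_of_mul hne)] at hP
  omega

lemma exists_degreeOf_pos {k : Type*} [Field k] {e : ℕ} (f : MvPolynomial (Fin e) k)
    (hf : f ≠ 0) (hu : ¬ IsUnit f) : ∃ j, 0 < f.degreeOf j := by
  by_contra hcon
  push Not at hcon
  have h0 : f.totalDegree = 0 := by
    rw [MvPolynomial.totalDegree_eq_zero_iff]
    intro m hm j
    have := MvPolynomial.monomial_le_degreeOf j hm
    have := hcon j
    omega
  rw [MvPolynomial.totalDegree_eq_zero_iff_eq_C] at h0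
  apply hu
  rw [h0]
  apply IsUnit.map
  apply isUnit_iff_ne_zero.2
  intro hc
  rw [hc, map_zero] at h0
  exact hf h0

theorem exists_prime_over {k A : Type*} [Field k] [CommRing A] [IsDomain A] [Algebra k A]
    [Algebra.FiniteType k A] (s : A) (hs : ¬ IsUnit s) {d : ℕ} (z : Fin (d + 1) → A)
    (hz : AlgebraicIndependent k z) :
    ∃ p : Ideal A, p.IsPrime ∧ s ∈ p ∧ ∃ y : Fin d → A ⧸ p, AlgebraicIndependent k y := by
  classical
  by_cases hs0 : s = 0
  · refine ⟨⊥, Ideal.isPrime_bot, by simp [hs0], fun i => Ideal.Quotient.mk ⊥ (z i.castSucc), ?_⟩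
    have h1 : AlgebraicIndependent k (fun i : Fin d => z i.castSucc) :=
      hz.comp _ (Fin.castSucc_injective d)
    have h2 : Function.Injective (Ideal.Quotient.mkₐ k (⊥ : Ideal A)) := by
      intro a b hab
      rw [Ideal.Quotient.mkₐ_eq_mk, Ideal.Quotient.eq, Ideal.mem_bot] at hab
      exact sub_eq_zero.1 hab
    exact h1.map' (f := Ideal.Quotient.mkₐ k (⊥ : Ideal A)) h2
  obtain ⟨e, g, hginj, hgfin⟩ := exists_finite_inj_algHom_of_fg k A
  let _ : Algebra (MvPolynomial (Fin e) k) A := g.toRingHom.toAlgebra
  have hgalg : ∀ x, algebraMap (MvPolynomial (Fin e) k) A x = g x := fun _ => rfl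
  have hst : IsScalarTower k (MvPolynomial (Fin e) k) A := IsScalarTower.of_algebraMap_eq
    (fun x => by rw [hgalg]; exact (g.commutes x).symm)
  have hfin : Module.Finite (MvPolynomial (Fin e) k) A := hgfin
  have hint : Algebra.IsIntegral (MvPolynomial (Fin e) k) A := inferInstance
  have hfaith : FaithfulSMul (MvPolynomial (Fin e) k) A :=
    (faithfulSMul_iff_algebraMap_injective _ _).2 hginj
  -- the dimension
  have hde : d + 1 ≤ e := by
    have h1 : IsTranscendenceBasis k (MvPolynomial.X (R := k) (σ := Fin e)) :=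
      IsTranscendenceBasis.mvPolynomial (Fin e) k
    have h2 := h1.algebraMap_comp (A := A)
    have h3 := h2.lift_cardinalMk_eq_trdeg
    have h4 := hz.lift_cardinalMk_le_trdeg
    rw [← h3] at h4
    simpa using h4
  -- the minimal polynomial
  set B := MvPolynomial (Fin e) k with hB
  have hsint : IsIntegral B s := hint.isIntegral s
  set m := minpoly B s with hm
  set b := m.coeff 0 with hb
  have hms : Polynomial.aeval s m = 0 := minpoly.aeval B s
  have hdvd : s ∣ algebraMap B A b := by
    have h1 : Polynomial.aeval s (Polynomial.X * m.divX + Polynomial.C b) = 0 := by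
      rw [Polynomial.X_mul_divX_add, hms]
    rw [map_add, map_mul, Polynomial.aeval_X, Polynomial.aeval_C] at h1
    exact ⟨-Polynomial.aeval s m.divX, by linear_combination h1⟩
  have hbu : ¬ IsUnit b := fun h => hs (isUnit_of_dvd_unit hdvd (h.map (algebraMap B A)))
  have hb0 : b ≠ 0 := by
    intro h0
    have h1 : Polynomial.aeval s (m.divX) = 0 := by
      have h2 : Polynomial.aeval s (Polynomial.X * m.divX + Polynomial.C b) = 0 := by
        rw [Polynomial.X_mul_divX_add, hms]
      rw [map_add, map_mul, Polynomial.aeval_X, Polynomial.aeval_C, h0, map_zero, add_zero] at h2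
      exact (mul_eq_zero.1 h2).resolve_left hs0
    have hmonic := minpoly.monic hsint
    have hne : m.divX ≠ 0 := by
      intro h3
      have h4 := Polynomial.X_mul_divX_add m
      rw [h3, mul_zero, zero_add, ← hb, h0, map_zero] at h4
      exact hmonic.ne_zero h4.symm
    have h5 := minpoly.IsIntegrallyClosed.degree_le_of_ne_zero hne h1
    have h6 := Polynomial.degree_divX_lt (p := m) hmonic.ne_zero
    exact absurd h6 (not_lt.2 h5)
  obtain ⟨π, hπ, hπb⟩ := WfDvdMonoid.exists_irreducible_factor hbu hb0
  have hπp : Prime π := hπ.prime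
  -- the prime ideal of `B[X]`
  let _ : Algebra (Polynomial B) A := (Polynomial.aeval s).toRingHom.toAlgebra
  have halg : ∀ q : Polynomial B, algebraMap (Polynomial B) A q = Polynomial.aeval s q :=
    fun _ => rfl
  have hint2 : Algebra.IsIntegral (Polynomial B) A := by
    have : IsScalarTower B (Polynomial B) A := IsScalarTower.of_algebraMap_eq (fun x => by
      rw [halg]; simp)
    exact Algebra.IsIntegral.tower_top B
  have hπI : (Ideal.span {π}).IsPrime := (Ideal.span_singleton_prime hπp.ne_zero).2 hπp
  let P : Ideal (Polynomial B) := (Ideal.span {π}).comap Polynomial.constantCoeff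
  have hPp : P.IsPrime := Ideal.comap_isPrime _ _
  have hker : (⊥ : Ideal A).comap (algebraMap (Polynomial B) A) ≤ P := by
    intro q hq
    rw [Ideal.mem_comap, Ideal.mem_bot, halg] at hq
    obtain ⟨r, hr⟩ := minpoly.isIntegrallyClosed_dvd hsint hq
    rw [Ideal.mem_comap, hr, map_mul]
    apply Ideal.mul_mem_right
    rw [Polynomial.constantCoeff_apply]
    exact Ideal.mem_span_singleton.2 hπb
  obtain ⟨Q, -, hQp, hQ⟩ := Ideal.exists_ideal_over_prime_of_isIntegral P ⊥ hker
  have hsQ : s ∈ Q := by
    have : (Polynomial.X : Polynomial B) ∈ P := by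
      rw [Ideal.mem_comap]
      simp
    rw [← hQ, Ideal.mem_comap, halg, Polynomial.aeval_X] at this
    exact this
  have hBQ : ∀ c : B, algebraMap B A c ∈ Q → c ∈ Ideal.span {π} := by
    intro c hc
    have : (Polynomial.C c : Polynomial B) ∈ P := by
      rw [← hQ, Ideal.mem_comap, halg, Polynomial.aeval_C]
      exact hc
    rw [Ideal.mem_comap, Polynomial.constantCoeff_apply, Polynomial.coeff_C_zero] at this
    exact this
  refine ⟨Q, hQp, hsQ, ?_⟩
  obtain ⟨j, hj⟩ := exists_degreeOf_pos π hπp.ne_zero hπp.not_isUnit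
  have hcard : d ≤ Fintype.card {i : Fin e // i ≠ j} := by
    rw [Fintype.card_subtype_compl]
    simp
    omega
  obtain ⟨emb⟩ : Nonempty (Fin d ↪ {i : Fin e // i ≠ j}) := by
    apply Function.Embedding.nonempty_of_card_le
    simpa using hcard
  refine ⟨fun i => Ideal.Quotient.mk Q (g (MvPolynomial.X (emb i).1)), ?_⟩
  rw [algebraicIndependent_iff]
  intro p hp
  have h1 : MvPolynomial.aeval
      (fun i : Fin d => Ideal.Quotient.mk Q (g (MvPolynomial.X (emb i).1))) p = Ideal.Quotient.mk Q (g (MvPolynomial.rename (fun i => (emb i).1) p)) := by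
    have : (MvPolynomial.aeval
        (fun i : Fin d => Ideal.Quotient.mk Q (g (MvPolynomial.X (emb i).1))) :
        MvPolynomial (Fin d) k →ₐ[k] A ⧸ Q) =
        (Ideal.Quotient.mkₐ k Q).comp (g.comp (MvPolynomial.rename (fun i => (emb i).1))) := by
      apply MvPolynomial.algHom_ext
      intro i
      simp
    exact DFunLike.congr_fun this p
  rw [h1, Ideal.Quotient.eq_zero_iff_mem] at hp
  have h2 := hBQ _ hp
  have h3 : MvPolynomial.rename (fun i => (emb i).1) p = 0 := by
    refine mem_span_of_degreeOf π j hj _ ?_ h2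
    rw [MvPolynomial.degreeOf_def, Multiset.count_eq_zero]
    intro h4
    have h5 := Multiset.subset_of_le (le_refl _) (MvPolynomial.degrees_rename _ _ h4)
    obtain ⟨i, -, hi⟩ := Multiset.mem_map.1 h5
    exact (emb i).2 hi
  exact MvPolynomial.rename_injective _ (fun a b hab => emb.injective (Subtype.ext hab))
    (h3.trans (map_zero _).symm)

end F80
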