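import Mathlib
/-! Module MIN (MP_80e906_al): minors and rank, specialisation of ranks. -/
open Module
namespace F80

/-- A matrix has `rank`-many linearly independent rows. -/
theorem exists_rows_li {K m n : Type*} [Field K] [Fintype m] [Fintype n]
    (A : Matrix m n K) {q : ℕ} (hq : A.rank = q) :
    ∃ r : Fin q → m, LinearIndependent K (A.submatrix r id).row := by
  classical
  obtain ⟨κ, a, hinj, hspan, hli⟩ := exists_linearIndependent' K A.row
  have : Finite κ := Finite.of_injective a hinj
  have : Fintype κ := Fintype.ofFinite κ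
  have hcard : Fintype.card κ = q := by
    rw [← hq, A.rank_eq_finrank_span_row, ← hspan, finrank_span_eq_card hli]
  let e : Fin q ≃ κ := (Fintype.equivFinOfCardEq hcard).symm
  refine ⟨a ∘ e, ?_⟩
  exact hli.comp e e.injective

theorem exists_det_ne_zero {K m n : Type*} [Field K] [Fintype m] [Fintype n]
    (A : Matrix m n K) :
    ∃ (r : Fin A.rank → m) (c : Fin A.rank → n), (A.submatrix r c).det ≠ 0 := by
  classical
  obtain ⟨r, hr⟩ := exists_rows_li A rfl
  have hrk : (A.submatrix r id).rank = A.rank := by
    rw [hr.rank_matrix, Fintype.card_fin]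
  have hrk2 : ((A.submatrix r id).transpose).rank = A.rank := by
    rw [Matrix.rank_transpose, hrk]
  obtain ⟨c, hc⟩ := exists_rows_li (A.submatrix r id).transpose hrk2
  refine ⟨r, c, ?_⟩
  have h1 : ((A.submatrix r id).transpose.submatrix c id) = (A.submatrix r c).transpose := rfl
  rw [h1] at hc
  have h2 : IsUnit (A.submatrix r c).transpose :=
    Matrix.linearIndependent_rows_iff_isUnit.mp hc
  rw [Matrix.isUnit_iff_isUnit_det, Matrix.det_transpose] at h2
  exact h2.ne_zero

theorem le_rank_of_det_ne_zero {K m n : Type*} [Field K] [Fintype m] [Fintype n]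
    (A : Matrix m n K) {q : ℕ} (r : Fin q → m) (c : Fin q → n)
    (h : (A.submatrix r c).det ≠ 0) : q ≤ A.rank := by
  have h1 := Matrix.rank_of_det_ne_zero h
  rw [Fintype.card_fin] at h1
  rw [← h1]
  exact Matrix.rank_submatrix_le A r c

/-- The rank of a matrix over a domain does not increase under specialisation. -/
theorem rank_map_le {R K K' m n : Type*} [CommRing R] [Field K] [Field K'] [Fintype m]
    [Fintype n] (f : R →+* K) (hf : Function.Injective f) (g : R →+* K') (A : Matrix m n R) :
    (A.map g).rank ≤ (A.map f).rank := by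
  obtain ⟨r, c, h⟩ := exists_det_ne_zero (A.map g)
  refine le_rank_of_det_ne_zero (A.map f) r c ?_
  have e1 : ((A.map g).submatrix r c).det = g (A.submatrix r c).det := by
    rw [Matrix.submatrix_map, RingHom.map_det]; rfl
  have e2 : ((A.map f).submatrix r c).det = f (A.submatrix r c).det := by
    rw [Matrix.submatrix_map, RingHom.map_det]; rfl
  rw [e1] at h
  rw [e2]
  intro h0
  apply h
  rw [(map_eq_zero_iff f hf).mp h0, map_zero]

end F80
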