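import Pool.Agent.H88.F80.DegPrep
import Pool.Agent.H88.F80.AlgIndep
import Pool.Agent.H88.F80.Krull
import Pool.Agent.H88.F80.MinRank
/-! Module DEG (MP_80e906_al): the dimension bound for nilpotent elements of the orthogonal of a
spherical subalgebra, by degeneration. -/
open Module TensorProduct Polynomial
universe u
namespace F80

/-- The degeneration step. -/
theorem deg_core {k : Type u} [Field k] [CharZero k] {g : Type u} [LieRing g]
    [LieAlgebra k g] [FiniteDimensional k g] [LieAlgebra.IsKilling k g] {n : ℕ} (G : IG k g n)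
    {E : Type u} [Field E] [Algebra k E] (ξ : Fin n → E) (hnil : IsNilpotent (G.adM ξ))
    (hψ : ∀ i, ∃ ψ : Fin n → k, (∀ b, ψ b ≠ 0 → G.deg b ≤ 0) ∧
      ξ i = ∑ b, algebraMap k E (ψ b) * ξ b)
    {d : ℕ} (c : Fin d → Fin n) (hc : AlgebraicIndependent k (fun j => ξ (c j))) :
    2 * d ≤ (G.adM ξ).rank := by
  classical
  -- the exponents
  obtain ⟨M, hM⟩ : ∃ M : ℕ, ∀ i, 0 ≤ (M : ℤ) + G.deg i := by
    refine ⟨∑ i, (G.deg i).natAbs, fun i => ?_⟩
    have h1 : (G.deg i).natAbs ≤ ∑ i, (G.deg i).natAbs :=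
      Finset.single_le_sum (f := fun i => (G.deg i).natAbs) (fun _ _ => Nat.zero_le _)
        (Finset.mem_univ i)
    have h2 : -((G.deg i).natAbs : ℤ) ≤ G.deg i := by omega
    omega
  set a : Fin n → ℕ := fun i => ((M : ℤ) + G.deg i).toNat with ha'
  have ha : ∀ i, (a i : ℤ) = M + G.deg i := fun i => Int.toNat_of_nonneg (hM i)
  set η : Fin n → E[X] := fun i => X ^ a i * C (ξ i) with hη
  let A : Subalgebra k E[X] := Algebra.adjoin k (insert X (Set.range η))
  have hXA : (X : E[X]) ∈ A := Algebra.subset_adjoin (Set.mem_insert _ _)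
  have hηA : ∀ i, η i ∈ A := fun i =>
    Algebra.subset_adjoin (Set.mem_insert_of_mem _ (Set.mem_range_self i))
  have hAf : Algebra.FiniteType k A := by
    rw [← Subalgebra.fg_iff_finiteType]
    exact Subalgebra.fg_def.2 ⟨insert X (Set.range η), (Set.finite_range η).insert _, rfl⟩
  let s : A := ⟨X, hXA⟩
  let ηA : Fin n → A := fun i => ⟨η i, hηA i⟩
  have hs : ¬ IsUnit s := by
    intro h
    have h1 : IsUnit (X : E[X]) := h.map A.val
    exact Polynomial.not_isUnit_X h1
  have hvi : Function.Injective A.val := Subtype.val_injective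
  let zA : Option (Fin d) → A := fun o => o.elim s (fun j => ηA (c j))
  have hzA : AlgebraicIndependent k zA := by
    have h1 := algebraicIndependent_shift (fun j => ξ (c j)) hc (fun j => a (c j))
    have h2 : (fun o : Option (Fin d) => o.elim (Polynomial.X : Polynomial E)
        (fun j => Polynomial.X ^ a (c j) * Polynomial.C (ξ (c j)))) = A.val ∘ zA := by
      funext o
      cases o with
      | none => rfl
      | some j => rfl
    rw [h2] at h1
    exact AlgebraicIndependent.of_comp A.val h1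
  obtain ⟨p, hp, hsp, y, hy⟩ := exists_prime_over (k := k) s hs (zA ∘ finSuccEquiv d)
    (hzA.comp _ (finSuccEquiv d).injective)
  let E₀ : Type u := FractionRing (A ⧸ p)
  let f : A →ₐ[k] E₀ := (IsScalarTower.toAlgHom k (A ⧸ p) E₀).comp (Ideal.Quotient.mkₐ k p)
  have hfs : f s = 0 := by
    change algebraMap (A ⧸ p) E₀ (Ideal.Quotient.mk p s) = 0
    rw [Ideal.Quotient.eq_zero_iff_mem.2 hsp, map_zero]
  -- nilpotency
  have hn1 : IsNilpotent (G.adM ηA) := by
    obtain ⟨m, hm⟩ := IG.isNilpotent_shift G ha ξ hnil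
    refine ⟨m, ?_⟩
    have h1 : (G.adM ηA).map A.val = G.adM η := G.adM_map A.val ηA
    have h2 : (G.adM ηA ^ m).map A.val = 0 := by
      have h3 := map_pow (AlgHom.mapMatrix (m := Fin n) A.val) (G.adM ηA) m
      rw [AlgHom.mapMatrix_apply, AlgHom.mapMatrix_apply, h1] at h3
      rw [h3]
      exact hm
    ext1 l j
    apply hvi
    have h4 := congrFun (congrFun h2 l) j
    rw [Matrix.map_apply] at h4
    rw [h4]
    simp
  have hn2 : IsNilpotent (G.adM (fun i => f (ηA i))) := by
    have h1 : (G.adM ηA).map f = G.adM (fun i => f (ηA i)) := G.adM_map f ηA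
    rw [← h1]
    have h2 := hn1.map (AlgHom.mapMatrix (m := Fin n) f)
    rw [AlgHom.mapMatrix_apply] at h2
    exact h2
  -- coordinates of positive degree
  have hpos : ∀ i, 0 < G.deg i → f (ηA i) = 0 := by
    intro i hi
    obtain ⟨ψ, hψ1, hψ2⟩ := hψ i
    have h1 : ηA i = s * ∑ b, algebraMap k A (ψ b) * (s ^ (a i - a b - 1) * ηA b) := by
      apply hvi
      change η i = X * A.val (∑ b, algebraMap k A (ψ b) * (s ^ (a i - a b - 1) * ηA b))
      rw [map_sum, Finset.mul_sum]
      change X ^ a i * C (ξ i) = _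
      rw [hψ2, map_sum, Finset.mul_sum]
      apply Finset.sum_congr rfl
      intro b _
      change X ^ a i * C (algebraMap k E (ψ b) * ξ b) =
        X * (C (algebraMap k E (ψ b)) * (X ^ (a i - a b - 1) * (X ^ a b * C (ξ b))))
      by_cases hb : ψ b = 0
      · rw [hb]; simp
      · have h2 := hψ1 b hb
        have h3 : a i = (a i - a b - 1) + a b + 1 := by
          have := ha i; have := ha b
          omega
        have h4 : (X : E[X]) ^ a i = X ^ (a i - a b - 1) * X ^ a b * X := by
          conv_lhs => rw [h3]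
          rw [pow_succ, pow_add]
        rw [h4, map_mul]
        ring
    rw [h1, map_mul, hfs, zero_mul]
  have hzero : ∀ i, G.deg i = 0 → f (ηA i) = 0 := fun i hi =>
    zero_part G (fun i => f (ηA i)) hpos hn2 i hi
  have hnonneg : ∀ i, 0 ≤ G.deg i → f (ηA i) = 0 := by
    intro i hi
    rcases hi.eq_or_lt with h | h
    · exact hzero i h.symm
    · exact hpos i h
  -- the independent elements
  have hyi : Function.Injective (IsScalarTower.toAlgHom k (A ⧸ p) E₀) :=
    IsFractionRing.injective (A ⧸ p) E₀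
  have hz : AlgebraicIndependent k (fun j => algebraMap (A ⧸ p) E₀ (y j)) :=
    hy.map' (f := IsScalarTower.toAlgHom k (A ⧸ p) E₀) hyi
  have hmem : ∀ b : A, f b ∈ IntermediateField.adjoin k (Set.range fun i => f (ηA i)) := by
    intro b
    obtain ⟨b, hb⟩ := b
    refine Algebra.adjoin_induction (p := fun b hb =>
      f ⟨b, hb⟩ ∈ IntermediateField.adjoin k (Set.range fun i => f (ηA i))) ?_ ?_ ?_ ?_ hb
    · intro x hx
      rcases Set.mem_insert_iff.1 hx with h | ⟨i, hi⟩
      · have : (⟨x, Algebra.subset_adjoin hx⟩ : A) = s := Subtype.ext h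
        rw [this, hfs]
        exact zero_mem _
      · have : (⟨x, Algebra.subset_adjoin hx⟩ : A) = ηA i := Subtype.ext hi.symm
        rw [this]
        exact IntermediateField.subset_adjoin k _ ⟨i, rfl⟩
    · intro r
      have : (⟨algebraMap k E[X] r, algebraMap_mem A r⟩ : A) = algebraMap k A r := rfl
      rw [this, AlgHom.commutes]
      exact algebraMap_mem _ _
    · intro x x' hx hx' h h'
      have : (⟨x + x', add_mem hx hx'⟩ : A) = (⟨x, hx⟩ : A) + ⟨x', hx'⟩ := rfl
      rw [this, map_add]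
      exact add_mem h h'
    · intro x x' hx hx' h h'
      have : (⟨x * x', mul_mem hx hx'⟩ : A) = (⟨x, hx⟩ : A) * ⟨x', hx'⟩ := rfl
      rw [this, map_mul]
      exact mul_mem h h'
  have hb := neg_bound G (fun i => f (ηA i)) hnonneg (fun j => algebraMap (A ⧸ p) E₀ (y j)) hz (by
    intro j
    obtain ⟨b, hb⟩ := Ideal.Quotient.mk_surjective (y j)
    have h1 := hmem b
    have h2 : algebraMap (A ⧸ p) E₀ (y j) = f b := by rw [← hb]; rfl
    rw [h2]
    exact isAlgebraic_algebraMap
      (⟨f b, h1⟩ : IntermediateField.adjoin k (Set.range fun i => f (ηA i))))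
  refine hb.trans ?_
  -- ranks
  have key : ∀ {q : ℕ} (r' c' : Fin q → Fin n),
      ((G.adM (fun i => f (ηA i))).submatrix r' c').det ≠ 0 → q ≤ (G.adM ξ).rank := by
    intro q r' c' hrc
    refine le_rank_of_det_ne_zero _ r' c' (IG.det_shift G ha ξ r' c' ?_)
    intro h0
    apply hrc
    have h1 : (G.adM ηA).map f = G.adM (fun i => f (ηA i)) := G.adM_map f ηA
    have h2 : (G.adM ηA).map A.val = G.adM η := G.adM_map A.val ηA
    have h3 : ((G.adM ηA).submatrix r' c').det = 0 := by
      apply hvi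
      have h4 := AlgHom.map_det A.val ((G.adM ηA).submatrix r' c')
      rw [h4, map_zero, AlgHom.mapMatrix_apply, ← Matrix.submatrix_map, h2]
      exact h0
    rw [← h1, Matrix.submatrix_map]
    have h5 := AlgHom.map_det f ((G.adM ηA).submatrix r' c')
    rw [AlgHom.mapMatrix_apply] at h5
    rw [← h5, h3, map_zero]
  obtain ⟨r', c', hrc⟩ := exists_det_ne_zero (G.adM (fun i => f (ηA i)))
  exact key r' c' hrc

theorem deg_bound_coord {k : Type u} [Field k] [CharZero k] {g : Type u} [LieRing g]
    [LieAlgebra k g] [FiniteDimensional k g] [LieAlgebra.IsKilling k g] {n : ℕ} (G : IG k g n)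
    (r : Submodule k g) (hr : r ⊔ G.pos = ⊤)
    {E : Type u} [Field E] [Algebra k E] (x : E ⊗[k] g)
    (hperp : ∀ y ∈ r, killingForm E (E ⊗[k] g) x (1 ⊗ₜ[k] y) = 0)
    (hnil : IsNilpotent (LieAlgebra.ad E (E ⊗[k] g) x : Module.End E (E ⊗[k] g)))
    {d : ℕ} (c : Fin d → Fin n)
    (hc : AlgebraicIndependent k (fun j => (G.v.baseChange E).repr x (c j))) :
    2 * d + finrank E (LinearMap.ker (LieAlgebra.ad E (E ⊗[k] g) x : Module.End E (E ⊗[k] g))) ≤
      n := by
  have h1 := deg_core G (fun i => (G.v.baseChange E).repr x i) ((G.isNilpotent_iff x).1 hnil)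
    (fun i => by
      obtain ⟨ψ, hψ, h⟩ := exists_psi G r hr i
      exact ⟨ψ, hψ, h x hperp⟩) c hc
  have h2 := G.finrank_ker x
  omega

end F80
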