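import Pool.Agent.H88.F80.AdM
import Pool.Agent.H45.F80.BC0
import Pool.Agent.H45.F80.FD
import Pool.Agent.H45.F80.A6
/-! Preparations for the module DEG (MP_80e906_al): elements of negative degree, coordinates of the
orthogonal, the shift by the grading. -/
open Module TensorProduct Polynomial
universe u
namespace F80


/-- Elements of negative degree are ad-nilpotent with vanishing theta form. -/
theorem neg_theta {k : Type u} [Field k] [CharZero k] {g : Type u} [LieRing g]
    [LieAlgebra k g] [FiniteDimensional k g] {n : ℕ} (G : IG k g n)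
    {E : Type u} [Field E] [Algebra k E] (x : E ⊗[k] g)
    (hx : ∀ i, 0 ≤ G.deg i → (G.v.baseChange E).repr x i = 0) (D : Derivation k E E) :
    SUT (G.v.baseChange E) (LieAlgebra.ad E (E ⊗[k] g) x) ∧
      theta (SDer.const D) (G.v.baseChange E) (LieAlgebra.ad E (E ⊗[k] g) x) = 0 := by
  constructor
  · intro i j hij
    rw [Basis.coord_apply, Basis.baseChange_apply, LieAlgebra.ad_apply, IG.lie_tmul,
      IG.adM_apply]
    apply Finset.sum_eq_zero
    intro l _
    rcases le_or_gt 0 (G.deg l) with h | h
    · rw [hx l h, zero_mul]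
    · by_cases hc : G.v.repr ⁅G.v l, G.v i⁆ j = 0
      · rw [hc, map_zero, mul_zero]
      · have h1 := G.lie l i j hc
        have h2 := G.mono hij
        omega
  · unfold theta
    apply Finset.sum_eq_zero
    intro i _
    rw [Basis.baseChange_apply, SDer.const_tmul]
    simp

/-- Coordinates of positive degree of an element orthogonal to `r`. -/
theorem exists_psi {k : Type u} [Field k] [CharZero k] {g : Type u} [LieRing g]
    [LieAlgebra k g] [FiniteDimensional k g] [LieAlgebra.IsKilling k g] {n : ℕ} (G : IG k g n)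
    (r : Submodule k g) (hr : r ⊔ G.pos = ⊤) (i : Fin n) :
    ∃ ψ : Fin n → k, (∀ b, ψ b ≠ 0 → G.deg b ≤ 0) ∧
      ∀ {E : Type u} [Field E] [Algebra k E] (x : E ⊗[k] g),
        (∀ y ∈ r, killingForm E (E ⊗[k] g) x (1 ⊗ₜ[k] y) = 0) →
        (G.v.baseChange E).repr x i =
          ∑ b, algebraMap k E (ψ b) * (G.v.baseChange E).repr x b := by
  have hnd : (killingForm k g).Nondegenerate := LieAlgebra.IsKilling.killingForm_nondegenerate k g
  let w : g := (LinearMap.BilinForm.dualBasis (killingForm k g) hnd G.v) i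
  have hw : ∀ b, killingForm k g (G.v b) w = if b = i then 1 else 0 := by
    intro b
    have h1 := LinearMap.BilinForm.apply_dualBasis_left (B := killingForm k g) hnd
      G.v i b
    rw [LieModule.traceForm_comm]
    exact h1
  obtain ⟨y, hy, z, hz, hyz⟩ := Submodule.mem_sup.1 (hr ▸ Submodule.mem_top : w ∈ r ⊔ G.pos)
  refine ⟨fun b => killingForm k g (G.v b) z, ?_, ?_⟩
  · intro b hb
    by_contra hneg
    push Not at hneg
    apply hb
    refine Submodule.span_induction (p := fun z _ => killingForm k g (G.v b) z = 0) ?_ ?_ ?_ ?_ hz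
    · rintro _ ⟨j, hj, rfl⟩
      exact G.kil b j (by omega)
    · simp
    · intro a c _ _ ha hc
      rw [map_add, ha, hc, add_zero]
    · intro a c _ hc
      rw [map_smul, hc, smul_zero]
  · intro E _ _ x hx
    have hexp : ∀ u : g, killingForm E (E ⊗[k] g) x (1 ⊗ₜ[k] u) =
        ∑ b, algebraMap k E (killingForm k g (G.v b) u) * (G.v.baseChange E).repr x b := by
      intro u
      have : CharZero E := charZero_of_injective_algebraMap (algebraMap k E).injective
      conv_lhs => rw [← (G.v.baseChange E).sum_repr x]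
      rw [map_sum, LinearMap.sum_apply]
      apply Finset.sum_congr rfl
      intro b _
      rw [map_smul, LinearMap.smul_apply, Basis.baseChange_apply, killingForm_baseChange,
        one_mul, one_mul, smul_eq_mul, mul_comm]
    have h1 : killingForm E (E ⊗[k] g) x (1 ⊗ₜ[k] w) = (G.v.baseChange E).repr x i := by
      rw [hexp]
      rw [Finset.sum_eq_single i]
      · rw [hw, if_pos rfl, map_one, one_mul]
      · intro b _ hb
        rw [hw, if_neg hb, map_zero, zero_mul]
      · simp
    rw [← h1, ← hexp, ← hyz, TensorProduct.tmul_add, map_add, hx y hy, zero_add]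



section
variable {k g : Type*} [Field k] [LieRing g] [LieAlgebra k g] {n : ℕ} (G : IG k g n)
  {E : Type*} [Field E] [Algebra k E]

theorem IG.adM_mul_diagonal {M : ℕ} {a : Fin n → ℕ} (ha : ∀ i, (a i : ℤ) = M + G.deg i)
    (ξ : Fin n → E) :
    G.adM (fun i => (X : E[X]) ^ a i * C (ξ i)) * Matrix.diagonal (fun l => (X : E[X]) ^ a l) =
      (X : E[X]) ^ M • (Matrix.diagonal (fun l => (X : E[X]) ^ a l) * (G.adM ξ).map C) := by
  ext1 l j
  rw [Matrix.mul_diagonal, Matrix.smul_apply, Matrix.diagonal_mul, Matrix.map_apply,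
    IG.adM_apply, IG.adM_apply, map_sum, Finset.sum_mul, smul_eq_mul, Finset.mul_sum,
    Finset.mul_sum]
  apply Finset.sum_congr rfl
  intro i _
  by_cases hc : G.v.repr ⁅G.v i, G.v j⁆ l = 0
  · rw [hc]; simp
  · have h1 := G.lie i j l hc
    have h2 : a i + a j = M + a l := by
      have := ha i; have := ha j; have := ha l
      omega
    have h3 : (algebraMap k E[X]) (G.v.repr ⁅G.v i, G.v j⁆ l) =
        C (algebraMap k E (G.v.repr ⁅G.v i, G.v j⁆ l)) := rfl
    rw [h3, map_mul]
    calc _ = (X ^ (a i + a j)) * (C (ξ i) * C (algebraMap k E (G.v.repr ⁅G.v i, G.v j⁆ l))) := by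
          rw [pow_add]; ring
      _ = _ := by rw [h2, pow_add]; ring

theorem IG.adM_pow_mul_diagonal {M : ℕ} {a : Fin n → ℕ} (ha : ∀ i, (a i : ℤ) = M + G.deg i)
    (ξ : Fin n → E) (m : ℕ) :
    G.adM (fun i => (X : E[X]) ^ a i * C (ξ i)) ^ m *
        Matrix.diagonal (fun l => (X : E[X]) ^ a l) =
      (X : E[X]) ^ (M * m) •
        (Matrix.diagonal (fun l => (X : E[X]) ^ a l) * ((G.adM ξ) ^ m).map C) := by
  induction m with
  | zero => simp
  | succ m ih =>
    have h1 : ((G.adM ξ) ^ m).map (C : E →+* E[X]) * (G.adM ξ).map (C : E →+* E[X]) =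
        ((G.adM ξ) ^ (m + 1)).map (C : E →+* E[X]) := by
      rw [pow_succ, Matrix.map_mul]
    calc _ = G.adM (fun i => (X : E[X]) ^ a i * C (ξ i)) ^ m *
          (G.adM (fun i => (X : E[X]) ^ a i * C (ξ i)) *
            Matrix.diagonal (fun l => (X : E[X]) ^ a l)) := by
          rw [pow_succ, mul_assoc]
      _ = (X : E[X]) ^ M • ((G.adM (fun i => (X : E[X]) ^ a i * C (ξ i)) ^ m *
            Matrix.diagonal (fun l => (X : E[X]) ^ a l)) * (G.adM ξ).map C) := by
          rw [IG.adM_mul_diagonal G ha, Matrix.mul_smul, mul_assoc]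
      _ = (X : E[X]) ^ M • (((X : E[X]) ^ (M * m) •
            (Matrix.diagonal (fun l => (X : E[X]) ^ a l) * ((G.adM ξ) ^ m).map C)) *
              (G.adM ξ).map C) := by rw [ih]
      _ = _ := by
          rw [Matrix.smul_mul, smul_smul, mul_assoc, h1, ← pow_add]
          congr 2
          ring

theorem IG.isNilpotent_shift {M : ℕ} {a : Fin n → ℕ} (ha : ∀ i, (a i : ℤ) = M + G.deg i)
    (ξ : Fin n → E) (h : IsNilpotent (G.adM ξ)) :
    IsNilpotent (G.adM (fun i => (X : E[X]) ^ a i * C (ξ i))) := by
  obtain ⟨m, hm⟩ := h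
  refine ⟨m, ?_⟩
  have h1 := IG.adM_pow_mul_diagonal G ha ξ m
  rw [hm] at h1
  ext1 l j
  have h2 := congrFun (congrFun h1 l) j
  rw [Matrix.mul_diagonal] at h2
  have h3 : ((0 : Matrix (Fin n) (Fin n) E).map C : Matrix (Fin n) (Fin n) E[X]) = 0 := by
    ext1; simp
  rw [h3, mul_zero, smul_zero, Matrix.zero_apply] at h2
  rcases mul_eq_zero.1 h2 with h4 | h4
  · rw [h4]; rfl
  · exact absurd h4 (pow_ne_zero _ X_ne_zero)

theorem IG.det_shift {M : ℕ} {a : Fin n → ℕ} (ha : ∀ i, (a i : ℤ) = M + G.deg i)
    (ξ : Fin n → E) {q : ℕ} (r c : Fin q → Fin n)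
    (h : ((G.adM (fun i => (X : E[X]) ^ a i * C (ξ i))).submatrix r c).det ≠ 0) :
    ((G.adM ξ).submatrix r c).det ≠ 0 := by
  intro h0
  have h1 := IG.adM_mul_diagonal G ha ξ
  have h2 := congrArg (fun A : Matrix (Fin n) (Fin n) E[X] => (A.submatrix r c).det) h1
  have h3 : ((G.adM (fun i => (X : E[X]) ^ a i * C (ξ i)) *
      Matrix.diagonal (fun l => (X : E[X]) ^ a l)).submatrix r c) =
      (G.adM (fun i => (X : E[X]) ^ a i * C (ξ i))).submatrix r c *
        Matrix.diagonal (fun l => (X : E[X]) ^ a (c l)) := by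
    ext1 l j
    simp [Matrix.submatrix_apply, Matrix.mul_diagonal]
  have h4 : (((X : E[X]) ^ M • (Matrix.diagonal (fun l => (X : E[X]) ^ a l) *
      (G.adM ξ).map C)).submatrix r c) =
      (X : E[X]) ^ M • (Matrix.diagonal (fun l => (X : E[X]) ^ a (r l)) *
        ((G.adM ξ).submatrix r c).map C) := by
    ext1 l j
    simp [Matrix.submatrix_apply, Matrix.diagonal_mul]
  have h5 : (((G.adM ξ).submatrix r c).map C : Matrix (Fin q) (Fin q) E[X]).det = 0 := by
    have := (RingHom.map_det (C : E →+* E[X]) ((G.adM ξ).submatrix r c)).symm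
    rw [h0, map_zero] at this
    exact this
  simp only [h3, h4, Matrix.det_mul, Matrix.det_smul, h5, mul_zero, Matrix.det_diagonal] at h2
  rcases mul_eq_zero.1 h2 with h6 | h6
  · exact h h6
  · rw [Finset.prod_eq_zero_iff] at h6
    obtain ⟨l, _, hl⟩ := h6
    exact absurd hl (pow_ne_zero _ X_ne_zero)

end

/-- The degree zero part of a nilpotent element of nonpositive degree vanishes. -/
theorem zero_part {k : Type u} [Field k] [CharZero k] {g : Type u} [LieRing g]
    [LieAlgebra k g] [FiniteDimensional k g] [LieAlgebra.IsKilling k g] {n : ℕ} (G : IG k g n)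
    {E : Type u} [Field E] [Algebra k E] (η : Fin n → E) (hη : ∀ i, 0 < G.deg i → η i = 0)
    (hnil : IsNilpotent (G.adM η)) (i : Fin n) (hi : G.deg i = 0) : η i = 0 := by
  have : CharZero E := charZero_of_injective_algebraMap (algebraMap k E).injective
  set η0 : Fin n → E := fun i => if G.deg i = 0 then η i else 0 with hη0
  -- entries
  have e1 : ∀ l j, G.deg j < G.deg l → G.adM η l j = 0 := by
    intro l j hlj
    rw [IG.adM_apply]
    apply Finset.sum_eq_zero
    intro i _
    by_cases hc : G.v.repr ⁅G.v i, G.v j⁆ l = 0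
    · rw [hc, map_zero, mul_zero]
    · have h1 := G.lie i j l hc
      rw [hη i (by omega), zero_mul]
  have e2 : ∀ l j, G.deg l = G.deg j → G.adM η l j = G.adM η0 l j := by
    intro l j hlj
    rw [IG.adM_apply, IG.adM_apply]
    apply Finset.sum_congr rfl
    intro i _
    by_cases hc : G.v.repr ⁅G.v i, G.v j⁆ l = 0
    · rw [hc, map_zero, mul_zero, mul_zero]
    · have h1 := G.lie i j l hc
      have h2 : G.deg i = 0 := by omega
      simp only [hη0, h2, if_true]
  have e3 : ∀ l j, G.deg l ≠ G.deg j → G.adM η0 l j = 0 := by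
    intro l j hlj
    rw [IG.adM_apply]
    apply Finset.sum_eq_zero
    intro i _
    by_cases hc : G.v.repr ⁅G.v i, G.v j⁆ l = 0
    · rw [hc, map_zero, mul_zero]
    · have h1 := G.lie i j l hc
      have h2 : G.deg i ≠ 0 := by omega
      simp only [hη0, h2, if_false, zero_mul]
  have p1 : ∀ m l j, G.deg j < G.deg l → (G.adM η ^ m) l j = 0 := by
    intro m
    induction m with
    | zero =>
      intro l j hlj
      rw [pow_zero, Matrix.one_apply_ne]
      rintro rfl
      omega
    | succ m ih =>
      intro l j hlj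
      rw [pow_succ, Matrix.mul_apply]
      apply Finset.sum_eq_zero
      intro t _
      rcases lt_or_ge (G.deg t) (G.deg l) with h | h
      · rw [ih l t h, zero_mul]
      · rw [e1 t j (by omega), mul_zero]
  have p3 : ∀ m l j, G.deg l ≠ G.deg j → (G.adM η0 ^ m) l j = 0 := by
    intro m
    induction m with
    | zero =>
      intro l j hlj
      rw [pow_zero, Matrix.one_apply_ne]
      rintro rfl
      exact hlj rfl
    | succ m ih =>
      intro l j hlj
      rw [pow_succ, Matrix.mul_apply]
      apply Finset.sum_eq_zero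
      intro t _
      by_cases h : G.deg l = G.deg t
      · rw [e3 t j (by omega), mul_zero]
      · rw [ih l t h, zero_mul]
  have p2 : ∀ m l j, G.deg l = G.deg j → (G.adM η ^ m) l j = (G.adM η0 ^ m) l j := by
    intro m
    induction m with
    | zero => intro l j _; rw [pow_zero, pow_zero]
    | succ m ih =>
      intro l j hlj
      rw [pow_succ, pow_succ, Matrix.mul_apply, Matrix.mul_apply]
      apply Finset.sum_congr rfl
      intro t _
      rcases lt_trichotomy (G.deg t) (G.deg l) with h | h | h
      · rw [p1 m l t h, p3 m l t (by omega), zero_mul, zero_mul]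
      · rw [ih l t h.symm, e2 t j (by omega)]
      · rw [e1 t j (by omega), e3 t j (by omega), mul_zero, mul_zero]
  have hnil0 : IsNilpotent (G.adM η0) := by
    obtain ⟨m, hm⟩ := hnil
    refine ⟨m, ?_⟩
    ext1 l j
    by_cases h : G.deg l = G.deg j
    · rw [← p2 m l j h, hm]
    · rw [p3 m l j h]; rfl
  set x0 : E ⊗[k] g := ∑ i, η0 i • (G.v.baseChange E) i with hx0
  have hrep : (fun i => (G.v.baseChange E).repr x0 i) = η0 := by
    ext i
    rw [hx0, map_sum, Finsupp.finsetSum_apply]
    rw [Finset.sum_eq_single i]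
    · simp
    · intro b _ hb
      simp [hb]
    · simp
  have hx0nil : IsNilpotent (LieAlgebra.ad E (E ⊗[k] g) x0 : Module.End E (E ⊗[k] g)) := by
    rw [G.isNilpotent_iff, hrep]
    exact hnil0
  have hKF : LieAlgebra.IsKilling E (E ⊗[k] g) := isKilling_baseChange E
  have hFD : FiniteDimensional E (E ⊗[k] g) := (G.v.baseChange E).finiteDimensional_of_finite
  have hk0 : ∀ y, killingForm E (E ⊗[k] g) x0 y = 0 := by
    have hb : ∀ j, killingForm E (E ⊗[k] g) x0 (1 ⊗ₜ[k] G.v j) = 0 := by
      intro j
      by_cases hj : G.deg j = 0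
      · rw [killingForm_apply_apply]
        have hcomm : Commute (LieAlgebra.ad E (E ⊗[k] g) x0 : Module.End E (E ⊗[k] g))
            (LieAlgebra.ad E (E ⊗[k] g) (1 ⊗ₜ[k] G.v j)) := by
          have h1 : ⁅x0, (1 ⊗ₜ[k] G.v j : E ⊗[k] g)⁆ = 0 := by
            rw [hx0, sum_lie]
            apply Finset.sum_eq_zero
            intro i _
            rw [smul_lie, Basis.baseChange_apply, LieAlgebra.ExtendScalars.bracket_tmul]
            by_cases hi : G.deg i = 0
            · rw [G.ab i j hi hj, TensorProduct.tmul_zero, smul_zero]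
            · simp only [hη0, hi, if_false, zero_smul]
          apply LinearMap.ext
          intro z
          change ⁅x0, ⁅(1 ⊗ₜ[k] G.v j : E ⊗[k] g), z⁆⁆ = ⁅(1 ⊗ₜ[k] G.v j : E ⊗[k] g), ⁅x0, z⁆⁆
          rw [leibniz_lie, h1, zero_lie, zero_add]
        exact (LinearMap.isNilpotent_trace_of_isNilpotent
          (hcomm.isNilpotent_mul_right hx0nil)).eq_zero
      · rw [hx0, map_sum, LinearMap.sum_apply]
        apply Finset.sum_eq_zero
        intro i _
        by_cases hi : G.deg i = 0
        · rw [map_smul, LinearMap.smul_apply, Basis.baseChange_apply, killingForm_baseChange,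
            G.kil i j (by omega)]
          simp
        · simp only [hη0, hi, if_false, zero_smul, map_zero, LinearMap.zero_apply]
    intro y
    rw [← (G.v.baseChange E).sum_repr y, map_sum]
    apply Finset.sum_eq_zero
    intro j _
    rw [map_smul, Basis.baseChange_apply, hb j, smul_zero]
  have hx00 : x0 = 0 := by
    have hnd := LieAlgebra.IsKilling.killingForm_nondegenerate E (E ⊗[k] g)
    exact hnd.1 x0 hk0
  have h1 := congrFun hrep i
  rw [hx00] at h1
  simp only [map_zero, Finsupp.coe_zero, Pi.zero_apply, hη0, hi, if_true] at h1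
  exact h1.symm



theorem SDer.const_D_smul {k E L : Type*} [CommRing k] [CommRing E] [Algebra k E]
    [AddCommGroup L] [Module k L] (D : Derivation k E E) (a : E) (x : E ⊗[k] L) :
    (SDer.const D : SDer E (E ⊗[k] L)).D (a • x) =
      D a • x + a • (SDer.const D : SDer E (E ⊗[k] L)).D x :=
  (SDer.const D : SDer E (E ⊗[k] L)).leib a x

theorem SDer.isLie_const {k E L : Type*} [CommRing k] [CommRing E] [Algebra k E]
    [LieRing L] [LieAlgebra k L] (D : Derivation k E E) :
    (SDer.const D : SDer E (E ⊗[k] L)).IsLie := by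
  intro x y
  induction x using TensorProduct.induction_on with
  | zero => simp
  | add x x' hx hx' =>
    rw [add_lie, map_add, hx, hx', map_add, add_lie, add_lie]; abel
  | tmul a m =>
    induction y using TensorProduct.induction_on with
    | zero => simp
    | add y y' hy hy' =>
      rw [lie_add, map_add, hy, hy', map_add, lie_add, lie_add]; abel
    | tmul b m' =>
      rw [LieAlgebra.ExtendScalars.bracket_tmul, SDer.const_tmul, SDer.const_tmul,
        SDer.const_tmul, LieAlgebra.ExtendScalars.bracket_tmul,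
        LieAlgebra.ExtendScalars.bracket_tmul, ← TensorProduct.add_tmul, Derivation.leibniz,
        smul_eq_mul, smul_eq_mul, mul_comm b, add_comm]

theorem SDer.const_lie {k E L : Type*} [CommRing k] [CommRing E] [Algebra k E]
    [AddCommGroup L] [Module k L] (D D' : Derivation k E E) (x : E ⊗[k] L) :
    (SDer.const ⁅D, D'⁆ : SDer E (E ⊗[k] L)).D x =
      (SDer.const D : SDer E (E ⊗[k] L)).D ((SDer.const D' : SDer E (E ⊗[k] L)).D x) -
      (SDer.const D' : SDer E (E ⊗[k] L)).D ((SDer.const D : SDer E (E ⊗[k] L)).D x) := by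
  induction x using TensorProduct.induction_on with
  | zero => simp
  | add x x' hx hx' => simp only [map_add, hx, hx']; abel
  | tmul a m =>
    simp only [SDer.const_tmul, Derivation.commutator_apply, TensorProduct.sub_tmul]

/-- The bound for elements all of whose coordinates of nonnegative degree vanish. -/
theorem neg_bound {k : Type u} [Field k] [CharZero k] {g : Type u} [LieRing g]
    [LieAlgebra k g] [FiniteDimensional k g] [LieAlgebra.IsKilling k g] {n : ℕ} (G : IG k g n)
    {E : Type u} [Field E] [Algebra k E] (η : Fin n → E) (hη : ∀ i, 0 ≤ G.deg i → η i = 0)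
    {d : ℕ} (z : Fin d → E) (hz : AlgebraicIndependent k z)
    (hzη : ∀ j, IsAlgebraic (IntermediateField.adjoin k (Set.range η)) (z j)) :
    2 * d ≤ (G.adM η).rank := by
  have : CharZero E := charZero_of_injective_algebraMap (algebraMap k E).injective
  have hKF : LieAlgebra.IsKilling E (E ⊗[k] g) := isKilling_baseChange E
  have hFD : FiniteDimensional E (E ⊗[k] g) := (G.v.baseChange E).finiteDimensional_of_finite
  set x0 : E ⊗[k] g := ∑ i, η i • (G.v.baseChange E) i with hx0
  have hrep : ∀ i, (G.v.baseChange E).repr x0 i = η i := by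
    intro i
    rw [hx0, map_sum, Finsupp.finsetSum_apply]
    rw [Finset.sum_eq_single i]
    · simp
    · intro b _ hb
      simp [hb]
    · simp
  have hrep' : (fun i => (G.v.baseChange E).repr x0 i) = η := funext hrep
  have hneg : ∀ i, 0 ≤ G.deg i → (G.v.baseChange E).repr x0 i = 0 := by
    intro i hi
    rw [hrep, hη i hi]
  obtain ⟨D, hD⟩ := exists_independent_derivations η z hz hzη
  have hDx : ∀ (D : Derivation k E E), (SDer.const D).D x0 =
      ∑ i, D (η i) • (G.v.baseChange E) i := by
    intro D
    rw [hx0, map_sum]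
    apply Finset.sum_congr rfl
    intro i _
    rw [SDer.const_D_smul, Basis.baseChange_apply, SDer.const_tmul]
    simp
  have hiso := isotropy (K := E) (g := E ⊗[k] g)
    {δ | ∃ D : Derivation k E E, δ = SDer.const D} (by
      rintro _ ⟨D, rfl⟩
      exact SDer.isLie_const D) (by
      rintro _ ⟨D, rfl⟩ _ ⟨D', rfl⟩
      exact ⟨SDer.const ⁅D, D'⁆, ⟨_, rfl⟩, fun x => SDer.const_lie D D' x⟩)
    x0 (G.v.baseChange E) (neg_theta G x0 hneg 0).1 (by
      rintro _ ⟨D, rfl⟩
      exact (neg_theta G x0 hneg D).2)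
  have hli : LinearIndependent E (fun j => (SDer.const (D j)).D x0) := by
    have h1 : (fun j => (SDer.const (D j)).D x0) =
        (G.v.baseChange E).equivFun.symm.toLinearMap ∘ (fun j => fun i => D j (η i)) := by
      funext j
      rw [hDx]
      simp only [Function.comp_apply, LinearEquiv.coe_coe, Basis.equivFun_symm_apply]
    rw [h1]
    exact hD.map' _ (LinearEquiv.ker _)
  have hcard : d ≤ finrank E (Submodule.span E {x : E ⊗[k] g | ∃ δ ∈
      {δ | ∃ D : Derivation k E E, δ = SDer.const D}, x = δ.D x0}) := by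
    have h2 := finrank_span_eq_card hli
    rw [Fintype.card_fin] at h2
    rw [← h2]
    apply Submodule.finrank_mono
    apply Submodule.span_mono
    rintro _ ⟨j, rfl⟩
    exact ⟨_, ⟨D j, rfl⟩, rfl⟩
  have hker := G.finrank_ker x0
  rw [hrep'] at hker
  have hn : finrank E (E ⊗[k] g) = n := by
    rw [finrank_eq_card_basis (G.v.baseChange E), Fintype.card_fin]
  rw [hn] at hiso
  omega

end F80
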