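import Mathlib
/-! Module DRK (MP_80e906_al): the rank of a family of derivations is at most the number of
algebraically independent coordinates. -/
open Module
namespace F80

/-- A derivation with values in a field which vanishes on a family vanishes on the elements that are
algebraic over it. -/
theorem derivation_eq_zero_of_algebraic {k R F : Type*} [Field k] [CharZero k]
    [CommRing R] [Algebra k R] [Field F] [Algebra R F] [IsFractionRing R F] [Algebra k F]
    [IsScalarTower k R F] (Δ : Derivation k R F) (S : Set R) (hS : ∀ x ∈ S, Δ x = 0) (y : R)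
    (hy : IsAlgebraic (Algebra.adjoin k S) y) : Δ y = 0 := by
  classical
  have hinj : Function.Injective (algebraMap R F) := IsFractionRing.injective R F
  have : IsDomain R := hinj.isDomain (algebraMap R F)
  set A := Algebra.adjoin k S with hA
  have h0 : ∀ a : A, Δ (a : R) = 0 := by
    intro a
    have : Set.EqOn Δ (0 : Derivation k R F) (Algebra.adjoin k S : Set R) :=
      Derivation.eqOn_adjoin (fun x hx => by simpa using hS x hx)
    simpa using this a.2
  let D : Derivation A R F :=
    { toFun := Δ
      map_add' := fun x y => map_add Δ x y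
      map_smul' := fun a x => by
        have : a • x = (a : R) * x := rfl
        rw [this, Derivation.leibniz, h0 a]
        simp only [smul_zero, add_zero, RingHom.id_apply]
        rfl
      map_one_eq_zero' := Δ.map_one_eq_zero
      leibniz' := fun x y => Δ.leibniz x y }
  have hD : ∀ x, D x = Δ x := fun _ => rfl
  -- a nonzero annihilating polynomial of least degree
  obtain ⟨P0, hP0, hP0y⟩ := hy
  have hex : ∃ n, ∃ P : Polynomial A, P ≠ 0 ∧ Polynomial.aeval y P = 0 ∧ P.natDegree = n :=
    ⟨_, P0, hP0, hP0y, rfl⟩
  obtain ⟨P, hP, hPy, hPn⟩ := Nat.find_spec hex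
  have hmin : ∀ Q : Polynomial A, Q ≠ 0 → Polynomial.aeval y Q = 0 → P.natDegree ≤ Q.natDegree := by
    intro Q hQ hQy
    rw [hPn]
    exact Nat.find_min' hex ⟨Q, hQ, hQy, rfl⟩
  have : CharZero A := by
    have : CharZero R := charZero_of_injective_algebraMap (FaithfulSMul.algebraMap_injective k R)
    infer_instance
  have hdeg : P.natDegree ≠ 0 := by
    intro h
    obtain ⟨c, hc⟩ := Polynomial.natDegree_eq_zero.1 h
    rw [← hc, Polynomial.aeval_C] at hPy
    have : c = 0 := by
      apply Subtype.ext
      simpa using hPy
    rw [this, Polynomial.C_0] at hc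
    exact hP hc.symm
  have hder : Polynomial.derivative P ≠ 0 := by
    intro h
    exact hdeg (Polynomial.derivative_eq_zero.1 h)
  have hne : Polynomial.aeval y (Polynomial.derivative P) ≠ 0 := by
    intro h
    have h1 := hmin _ hder h
    have h2 := Polynomial.natDegree_derivative_lt hdeg
    omega
  have key := D.map_aeval P y
  rw [hPy, map_zero] at key
  have key2 : (0 : F) = algebraMap R F (Polynomial.aeval y (Polynomial.derivative P)) * Δ y := by
    rw [← Algebra.smul_def]
    exact key
  rcases mul_eq_zero.1 key2.symm with h | h
  · exact absurd ((map_eq_zero_iff _ hinj).1 h) hne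
  · exact h

theorem exists_algebraicIndependent_of_derivations {k R F : Type*} [Field k] [CharZero k]
    [CommRing R] [Algebra k R] [Field F] [Algebra R F] [IsFractionRing R F]
    {ι : Type*} [Finite ι] (ξ : ι → R) {q : ℕ} (δ : Fin q → Derivation k R R)
    (hli : LinearIndependent F (fun j => fun i => algebraMap R F (δ j (ξ i)))) :
    ∃ c : Fin q → ι, AlgebraicIndependent k (fun j => ξ (c j)) := by
  classical
  have := Fintype.ofFinite ι
  have hinj : Function.Injective (algebraMap R F) := IsFractionRing.injective R F
  have : Nontrivial R := (algebraMap R F).domain_nontrivial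
  let _ : Algebra k F := ((algebraMap R F).comp (algebraMap k R)).toAlgebra
  have : IsScalarTower k R F := IsScalarTower.of_algebraMap_eq (fun _ => rfl)
  -- a maximal algebraically independent subfamily
  have hempty : AlgebraicIndepOn k ξ ((∅ : Finset ι) : Set ι) := by
    rw [Finset.coe_empty]
    exact algebraicIndependent_empty_type_iff.2 (FaithfulSMul.algebraMap_injective k R)
  obtain ⟨s, hs, hmax⟩ := (Finset.univ.filter
    (fun s : Finset ι => AlgebraicIndepOn k ξ (s : Set ι))).exists_max_image Finset.card
    ⟨∅, by simpa using hempty⟩
  have hsi : AlgebraicIndepOn k ξ (s : Set ι) := (Finset.mem_filter.1 hs).2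
  have halg : ∀ i, IsAlgebraic (Algebra.adjoin k (ξ '' (s : Set ι))) (ξ i) := by
    intro i
    by_contra hcon
    by_cases hi : i ∈ s
    · exact hcon (isAlgebraic_algebraMap
        (⟨_, Algebra.subset_adjoin ⟨i, hi, rfl⟩⟩ : Algebra.adjoin k (ξ '' (s : Set ι))))
    · have h1 : AlgebraicIndepOn k ξ (insert i (s : Set ι)) := AlgebraicIndepOn.insert hsi hcon
      have h2 : insert i s ∈ Finset.univ.filter
          (fun s : Finset ι => AlgebraicIndepOn k ξ (s : Set ι)) := by
        rw [Finset.mem_filter]
        refine ⟨Finset.mem_univ _, ?_⟩
        rw [Finset.coe_insert]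
        exact h1
      have h3 := hmax _ h2
      rw [Finset.card_insert_of_notMem hi] at h3
      omega
  have hq : q ≤ s.card := by
    by_contra hlt
    rw [not_le] at hlt
    -- dependence of the restricted vectors
    have hdep : ¬ LinearIndependent F
        (fun j : Fin q => fun i : s => algebraMap R F (δ j (ξ i))) := by
      intro hli'
      have := hli'.fintype_card_le_finrank
      simp at this
      omega
    rw [Fintype.not_linearIndependent_iff] at hdep
    obtain ⟨c, hc, j0, hj0⟩ := hdep
    have hc' : ∀ i ∈ s, ∑ j, c j * algebraMap R F (δ j (ξ i)) = 0 := by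
      intro i hi
      have := congrFun hc ⟨i, hi⟩
      simpa using this
    -- the combined derivation
    let Δ : Derivation k R F :=
      { toFun := fun x => ∑ j, c j * algebraMap R F (δ j x)
        map_add' := fun x y => by
          simp only [map_add, mul_add, Finset.sum_add_distrib]
        map_smul' := fun a x => by
          simp only [RingHom.id_apply, Finset.smul_sum]
          refine Finset.sum_congr rfl fun j _ => ?_
          rw [(δ j).map_smul a x, Algebra.smul_def a (δ j x), map_mul, Algebra.smul_def,
            ← IsScalarTower.algebraMap_apply]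
          ring
        map_one_eq_zero' := by simp
        leibniz' := fun x y => by
          show ∑ j, c j * algebraMap R F (δ j (x * y))
            = x • (∑ j, c j * algebraMap R F (δ j y)) + y • (∑ j, c j * algebraMap R F (δ j x))
          rw [Finset.smul_sum, Finset.smul_sum, ← Finset.sum_add_distrib]
          refine Finset.sum_congr rfl fun j _ => ?_
          rw [Derivation.leibniz, map_add, smul_eq_mul, smul_eq_mul, map_mul, map_mul,
            Algebra.smul_def, Algebra.smul_def]
          ring }
    have hΔ : ∀ x, Δ x = ∑ j, c j * algebraMap R F (δ j x) := fun _ => rfl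
    have hall : ∀ i, Δ (ξ i) = 0 := fun i =>
      derivation_eq_zero_of_algebraic Δ (ξ '' (s : Set ι)) (by
        rintro _ ⟨i', hi', rfl⟩
        rw [hΔ]
        exact hc' i' hi') (ξ i) (halg i)
    rw [Fintype.linearIndependent_iff] at hli
    refine hj0 (hli c ?_ j0)
    ext i
    have := hall i
    rw [hΔ] at this
    simpa using this
  -- pick `q` elements of `s`
  obtain ⟨t, ht, htq⟩ := Finset.exists_subset_card_eq hq
  have hti : AlgebraicIndepOn k ξ (t : Set ι) := hsi.mono (by exact_mod_cast ht)
  let e := (t.equivFinOfCardEq htq).symm
  refine ⟨fun j => (e j : ι), ?_⟩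
  exact hti.comp (fun j => (⟨(e j : ι), (e j).2⟩ : (t : Set ι))) (by
    intro a b hab
    have : (e a : ι) = (e b : ι) := congrArg (fun z : (t : Set ι) => (z : ι)) hab
    exact e.injective (Subtype.ext this))

end F80
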