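import Mathlib
/-! Module EXS (MP_80e906_al): the exponential series of a matrix (helper90). -/
open Module
namespace F80

variable {K ι : Type*} [Field K] [Fintype ι] [DecidableEq ι]

/-- The matrix of formal power series `exp (s T)`. -/
noncomputable def expM (T : Matrix ι ι K) : Matrix ι ι (PowerSeries K) :=
  Matrix.of fun i j => PowerSeries.mk fun n => ((n.factorial : K))⁻¹ * (T ^ n) i j

/-- The matrix of the `n`-th coefficients. -/
noncomputable def cm (n : ℕ) (A : Matrix ι ι (PowerSeries K)) : Matrix ι ι K :=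
  A.map (PowerSeries.coeff n)

omit [DecidableEq ι] in
theorem cm_mul (n : ℕ) (A B : Matrix ι ι (PowerSeries K)) :
    cm n (A * B) = ∑ p ∈ Finset.HasAntidiagonal.antidiagonal n, cm p.1 A * cm p.2 B := by
  ext i j
  simp only [cm, Matrix.map_apply, Matrix.mul_apply, map_sum, PowerSeries.coeff_mul,
    Matrix.sum_apply]
  exact Finset.sum_comm

omit [Fintype ι] [DecidableEq ι] in
theorem ext_cm {A B : Matrix ι ι (PowerSeries K)} (h : ∀ n, cm n A = cm n B) : A = B := by
  ext i j n
  have := congrFun (congrFun (h n) i) j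
  simpa [cm] using this

theorem cm_expM (n : ℕ) (T : Matrix ι ι K) : cm n (expM T) = ((n.factorial : K))⁻¹ • T ^ n := by
  ext i j
  simp [cm, expM]

omit [Fintype ι] [DecidableEq ι] in
theorem cm_C (n : ℕ) (X : Matrix ι ι K) :
    cm n (X.map PowerSeries.C) = if n = 0 then X else 0 := by
  ext i j
  by_cases hn : n = 0
  · simp [cm, hn]
  · simp [cm, hn, PowerSeries.coeff_C]

omit [Fintype ι] in
theorem cm_one (n : ℕ) : cm n (1 : Matrix ι ι (PowerSeries K)) = if n = 0 then 1 else 0 := by
  ext i j
  by_cases hn : n = 0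
  · by_cases hij : i = j
    · subst hij; simp [cm, hn]
    · simp [cm, hn, hij]
  · by_cases hij : i = j
    · subst hij; simp [cm, hn, PowerSeries.coeff_one]
    · simp [cm, hn, hij]

theorem choose_inv [CharZero K] {n : ℕ} {p : ℕ × ℕ} (hp : p ∈ Finset.HasAntidiagonal.antidiagonal n) :
    ((p.1.factorial : K))⁻¹ * ((p.2.factorial : K))⁻¹
      = ((n.factorial : K))⁻¹ * (n.choose p.1 : K) := by
  rw [Finset.HasAntidiagonal.mem_antidiagonal] at hp
  subst hp
  have h := Nat.add_choose_mul_factorial_mul_factorial p.1 p.2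
  have h' : (((p.1 + p.2).choose p.1 : ℕ) : K) * (p.1.factorial : K) * (p.2.factorial : K)
      = ((p.1 + p.2).factorial : K) := by
    rw [Nat.choose_symm_add]
    exact_mod_cast h
  have h1 : (p.1.factorial : K) ≠ 0 := by exact_mod_cast p.1.factorial_ne_zero
  have h2 : (p.2.factorial : K) ≠ 0 := by exact_mod_cast p.2.factorial_ne_zero
  have h3 : ((p.1 + p.2).factorial : K) ≠ 0 := by exact_mod_cast (p.1 + p.2).factorial_ne_zero
  field_simp
  linear_combination h'.symm

theorem expM_mul_neg [CharZero K] (T : Matrix ι ι K) : expM T * expM (-T) = 1 := by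
  apply ext_cm
  intro n
  rw [cm_mul, cm_one]
  have h1 : ∀ p ∈ Finset.HasAntidiagonal.antidiagonal n, cm p.1 (expM T) * cm p.2 (expM (-T))
      = ((n.factorial : K))⁻¹ • (n.choose p.1 • (T ^ p.1 * (-T) ^ p.2)) := by
    intro p hp
    rw [cm_expM, cm_expM, smul_mul_smul_comm, choose_inv hp, mul_smul, Nat.cast_smul_eq_nsmul]
  rw [Finset.sum_congr rfl h1, ← Finset.smul_sum,
    ← (Commute.neg_right (Commute.refl T)).add_pow' n, add_neg_cancel]
  by_cases hn : n = 0
  · simp [hn]
  · simp [hn]

/-- Conjugation by the exponential is the exponential of the commutator. -/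
theorem expM_conj [CharZero K] (T X : Matrix ι ι K) :
    expM T * X.map PowerSeries.C * expM (-T) = Matrix.of fun i j => PowerSeries.mk fun n =>
      ((n.factorial : K))⁻¹ * ((fun Y : Matrix ι ι K => T * Y - Y * T)^[n] X) i j := by
  apply ext_cm
  intro n
  have hR : cm n (Matrix.of fun i j => PowerSeries.mk fun n =>
      ((n.factorial : K))⁻¹ * ((fun Y : Matrix ι ι K => T * Y - Y * T)^[n] X) i j)
      = ((n.factorial : K))⁻¹ • ((fun Y : Matrix ι ι K => T * Y - Y * T)^[n] X) := by
    ext i j
    simp [cm]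
  have hA : ∀ m, cm m (expM T * X.map PowerSeries.C) = ((m.factorial : K))⁻¹ • (T ^ m * X) := by
    intro m
    rw [cm_mul, Finset.sum_eq_single (m, 0)]
    · rw [cm_expM, cm_C, if_pos rfl, smul_mul_assoc]
    · rintro ⟨a, b⟩ hab hne
      rw [Finset.HasAntidiagonal.mem_antidiagonal] at hab
      have hb : b ≠ 0 := by
        rintro rfl
        apply hne
        simp only [add_zero] at hab
        rw [hab]
      rw [cm_C, if_neg hb, mul_zero]
    · intro h
      exact absurd (Finset.HasAntidiagonal.mem_antidiagonal.2 (add_zero m)) h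
  rw [hR, cm_mul]
  have h1 : ∀ p ∈ Finset.HasAntidiagonal.antidiagonal n, cm p.1 (expM T * X.map PowerSeries.C) * cm p.2 (expM (-T))
      = ((n.factorial : K))⁻¹ • (n.choose p.1 • (T ^ p.1 * X * (-T) ^ p.2)) := by
    intro p hp
    rw [hA, cm_expM, smul_mul_smul_comm, choose_inv hp, mul_smul, Nat.cast_smul_eq_nsmul]
  rw [Finset.sum_congr rfl h1, ← Finset.smul_sum]
  congr 1
  have hf : (fun Y : Matrix ι ι K => T * Y - Y * T)
      = (LinearMap.mulLeft K T + LinearMap.mulRight K (-T) : Module.End K (Matrix ι ι K)) := by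
    funext Y
    simp [sub_eq_add_neg]
  rw [hf, ← Module.End.pow_apply,
    Commute.add_pow' (LinearMap.commute_mulLeft_right T (-T)) n, LinearMap.sum_apply]
  refine Finset.sum_congr rfl fun p _ => ?_
  rw [LinearMap.smul_apply, Module.End.mul_apply, LinearMap.pow_mulLeft, LinearMap.pow_mulRight,
    LinearMap.mulRight_apply, LinearMap.mulLeft_apply, mul_assoc]

end F80
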