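import Pool.Agent.H45.F80.Defs
/-! Module HOM (MP_80e906_al): integral gradings by a sorted homogeneous basis. -/
open Module
namespace F80

/-- A basis of homogeneous elements for an integral grading with abelian degree zero part, sorted
by degree. -/
structure IG (k g : Type*) [Field k] [LieRing g] [LieAlgebra k g] (n : ℕ) where
  v : Basis (Fin n) k g
  deg : Fin n → ℤ
  mono : Monotone deg
  lie : ∀ i j l, v.repr ⁅v i, v j⁆ l ≠ 0 → deg l = deg i + deg j
  kil : ∀ i j, deg i + deg j ≠ 0 → killingForm k g (v i) (v j) = 0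
  ab : ∀ i j, deg i = 0 → deg j = 0 → ⁅v i, v j⁆ = 0

/-- The span of the elements of nonnegative degree. -/
def IG.pos {k g : Type*} [Field k] [LieRing g] [LieAlgebra k g] {n : ℕ} (D : IG k g n) :
    Submodule k g := Submodule.span k {x | ∃ i, 0 ≤ D.deg i ∧ D.v i = x}

theorem mem_gr_iff {k g : Type*} [Field k] [CharZero k] [LieRing g] [LieAlgebra k g] {w x : g}
    {q : ℚ} : x ∈ gr k w q ↔ ⁅w, x⁆ = (q : k) • x := by
  unfold gr
  rw [Module.End.mem_eigenspace_iff]
  rfl

theorem exists_eigenbasis {k g : Type*} [Field k] [CharZero k] [LieRing g] [LieAlgebra k g]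
    [FiniteDimensional k g] {w : g} (htop : (⨆ q : ℚ, gr k w q) = ⊤) :
    ∃ (v : Basis (Fin (finrank k g)) k g) (qd : Fin (finrank k g) → ℚ),
      Monotone qd ∧ ∀ i, ⁅w, v i⁆ = (qd i : k) • v i := by
  classical
  have hind : iSupIndep (fun q : ℚ => gr k w q) :=
    (Module.End.eigenspaces_iSupIndep (LieAlgebra.ad k g w : Module.End k g)).comp
      (Rat.cast_injective (α := k))
  have hint : DirectSum.IsInternal (fun q : ℚ => gr k w q) :=
    DirectSum.isInternal_submodule_of_iSupIndep_of_iSup_eq_top hind htop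
  let b : ∀ q : ℚ, Basis (Fin (finrank k (gr k w q))) k (gr k w q) := fun q =>
    Module.finBasis k (gr k w q)
  let B := hint.collectedBasis b
  have hBmem : ∀ a : (Σ q : ℚ, Fin (finrank k (gr k w q))), B a ∈ gr k w a.1 := fun a =>
    hint.collectedBasis_mem b a
  haveI hfin : Finite (Σ q : ℚ, Fin (finrank k (gr k w q))) := Module.Finite.finite_basis B
  haveI := Fintype.ofFinite (Σ q : ℚ, Fin (finrank k (gr k w q)))
  have hcard : finrank k g = Fintype.card (Σ q : ℚ, Fin (finrank k (gr k w q))) :=
    Module.finrank_eq_card_basis B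
  let e : Fin (finrank k g) ≃ (Σ q : ℚ, Fin (finrank k (gr k w q))) :=
    (finCongr hcard).trans (Fintype.equivFin _).symm
  let σ := Tuple.sort (fun i => (e i).1)
  refine ⟨B.reindex (σ.trans e).symm, fun i => ((σ.trans e) i).1, ?_, ?_⟩
  · exact Tuple.monotone_sort (fun i => (e i).1)
  · intro i
    rw [← mem_gr_iff]
    rw [Basis.reindex_apply]
    exact hBmem _

theorem exists_common_den {ι : Type*} [Fintype ι] (q : ι → ℚ) :
    ∃ (m : ℕ) (d : ι → ℤ), 0 < m ∧ ∀ i, (d i : ℚ) = m * q i := by
  classical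
  refine ⟨∏ i, (q i).den, fun i => (∏ j ∈ Finset.univ.erase i, ((q j).den : ℤ)) * (q i).num,
    Finset.prod_pos (fun i _ => (q i).den_pos), ?_⟩
  intro i
  rw [← Finset.mul_prod_erase Finset.univ (fun j => (q j).den) (Finset.mem_univ i)]
  push_cast
  have h : ((q i).den : ℚ) * q i = (q i).num := by
    rw [mul_comm]
    exact Rat.mul_den_eq_num (q i)
  rw [mul_comm ((q i).den : ℚ), mul_assoc, h]

theorem exists_IG {k g : Type*} [Field k] [CharZero k] [LieRing g] [LieAlgebra k g]
    [FiniteDimensional k g] {w : g} (hw : RR k w) :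
    ∃ D : IG k g (finrank k g), D.pos = bor k w := by
  classical
  obtain ⟨v, qd, hmono, hv⟩ := exists_eigenbasis hw.top
  obtain ⟨m, d, hm, hd⟩ := exists_common_den qd
  have hmQ : (0 : ℚ) < m := by exact_mod_cast hm
  -- ad w acts diagonally
  have hdiag : ∀ (x : g) (l : Fin (finrank k g)), v.repr ⁅w, x⁆ l = (qd l : k) * v.repr x l := by
    intro x l
    have h : (v.coord l) ∘ₗ (LieAlgebra.ad k g w : Module.End k g) = (qd l : k) • v.coord l := by
      apply v.ext
      intro i
      simp only [LinearMap.comp_apply, LieAlgebra.ad_apply, LinearMap.smul_apply, hv i, map_smul,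
        Basis.coord_apply, Basis.repr_self, smul_eq_mul, Finsupp.single_apply]
      split_ifs with hil
      · rw [hil]
      · simp
    have h2 := LinearMap.congr_fun h x
    simpa using h2
  have hgr : ∀ (x : g) (q : ℚ), ⁅w, x⁆ = (q : k) • x → ∀ l, v.repr x l ≠ 0 → qd l = q := by
    intro x q hx l hl
    have h1 := hdiag x l
    rw [hx, map_smul, Finsupp.smul_apply, smul_eq_mul] at h1
    have h2 := mul_right_cancel₀ hl h1
    exact (Rat.cast_injective (α := k) h2).symm
  have hbr : ∀ i j, ⁅w, ⁅v i, v j⁆⁆ = ((qd i + qd j : ℚ) : k) • ⁅v i, v j⁆ := by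
    intro i j
    rw [leibniz_lie, hv i, hv j, smul_lie, lie_smul, ← add_smul]
    push_cast
    rfl
  refine ⟨⟨v, d, ?_, ?_, ?_, ?_⟩, ?_⟩
  · intro i j hij
    have h1 : (d i : ℚ) ≤ d j := by
      rw [hd, hd]
      exact mul_le_mul_of_nonneg_left (hmono hij) hmQ.le
    exact_mod_cast h1
  · intro i j l hl
    have h1 := hgr _ _ (hbr i j) l hl
    have h2 : (d l : ℚ) = d i + d j := by
      rw [hd, hd, hd, h1]
      ring
    exact_mod_cast h2
  · intro i j hij
    have h1 : killingForm k g ⁅w, v i⁆ (v j) = - killingForm k g (v i) ⁅w, v j⁆ := by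
      rw [← lie_skew w (v i), map_neg, LinearMap.neg_apply]
      congr 1
      exact LieModule.traceForm_apply_lie_apply k g g (v i) w (v j)
    rw [hv i, hv j, map_smul, map_smul, LinearMap.smul_apply, smul_eq_mul, smul_eq_mul] at h1
    have h2 : (((qd i + qd j : ℚ)) : k) * killingForm k g (v i) (v j) = 0 := by
      push_cast
      rw [add_mul, h1]
      ring
    rcases mul_eq_zero.1 h2 with h3 | h3
    · exfalso
      apply hij
      have h4 : qd i + qd j = 0 := by exact_mod_cast h3
      have h5 : (d i : ℚ) + d j = 0 := by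
        rw [hd, hd, ← mul_add, h4, mul_zero]
      exact_mod_cast h5
    · exact h3
  · intro i j hi hj
    have hq : ∀ l, d l = 0 → qd l = 0 := by
      intro l hl
      have h1 := hd l
      rw [hl, Int.cast_zero] at h1
      rcases mul_eq_zero.1 h1.symm with h2 | h2
      · exact absurd h2 hmQ.ne'
      · exact h2
    apply hw.comm
    · rw [hv, hq i hi]; simp
    · rw [hv, hq j hj]; simp
  · have hpos : ∀ l, 0 ≤ d l ↔ 0 ≤ qd l := by
      intro l
      constructor
      · intro h
        have h1 : (0 : ℚ) ≤ d l := by exact_mod_cast h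
        rw [hd] at h1
        exact nonneg_of_mul_nonneg_right h1 hmQ
      · intro h
        have h1 : (0 : ℚ) ≤ d l := by
          rw [hd]
          positivity
        exact_mod_cast h1
    unfold IG.pos bor
    apply le_antisymm
    · rw [Submodule.span_le]
      rintro x ⟨i, hi, rfl⟩
      have h1 : v i ∈ gr k w (qd i) := mem_gr_iff.2 (hv i)
      have h2 : gr k w (qd i) ≤ ⨆ (q : ℚ) (_ : 0 ≤ q), gr k w q :=
        le_iSup₂_of_le (qd i) ((hpos i).1 hi) le_rfl
      exact h2 h1
    · apply iSup₂_le
      intro q hq x hx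
      rw [mem_gr_iff] at hx
      rw [← v.sum_repr x]
      apply Submodule.sum_mem
      intro l _
      by_cases hl : v.repr x l = 0
      · rw [hl, zero_smul]
        exact Submodule.zero_mem _
      · apply Submodule.smul_mem
        apply Submodule.subset_span
        refine ⟨l, ?_, rfl⟩
        rw [hpos, hgr x q hx l hl]
        exact hq

end F80
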