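import Pool.Agent.H88.F80.SatAux2
/-! Algebraic independence of coordinates for the module SAT (MP_80e906_al). -/
open Module TensorProduct
universe u
namespace F80

/-- Rows of a matrix of rank equal to the number of rows are independent. -/
theorem li_row_of_rank {F : Type*} [Field F] {N n : ℕ} (U : Matrix (Fin N) (Fin n) F)
    (h : N ≤ U.rank) : LinearIndependent F U.row := by
  rw [linearIndependent_iff_card_le_finrank_span, Fintype.card_fin]
  rw [Matrix.rank_eq_finrank_span_row] at h
  exact h

theorem algInd_expV {k : Type*} [Field k] [CharZero k] {g : Type*} [LieRing g] [LieAlgebra k g]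
    {n : ℕ} (v : Basis (Fin n) k g) {K : Type*} [Field K] [Algebra k K] {N : ℕ} (y : Fin N → g)
    (c : Fin N → K) (a : Fin n → K) (δ ε : Fin N → Derivation ℤ K K)
    (hδ : ∀ i (b : k), δ i (algebraMap k K b) = 0) (hε : ∀ i (b : k), ε i (algebraMap k K b) = 0)
    (hεa : ∀ i j, ε i (a j) = 0) (hεc : ∀ i m, ε i (c m) = if m = i then 1 else 0)
    (hli : LinearIndependent K (fun i => fun j => δ i (a j)
      + ∑ l, algebraMap k K (adM v (y i) j l) * a l)) :
    ∃ c' : Fin N → Fin n, AlgebraicIndependent k (fun i =>
      expV (∑ m, c m • (adM v (y m)).map (algebraMap k K)) a (c' i)) := by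
  have : CharZero K := charZero_of_injective_algebraMap (algebraMap k K).injective
  set T : Matrix (Fin n) (Fin n) K := ∑ m, c m • (adM v (y m)).map (algebraMap k K) with hT
  set R := PowerSeries K
  set F := FractionRing (PowerSeries K)
  have hTe : ∀ j l, T j l = ∑ m, c m * algebraMap k K (adM v (y m) j l) := by
    intro j l
    rw [hT, Matrix.sum_apply]
    refine Finset.sum_congr rfl fun m _ => ?_
    rw [Matrix.smul_apply, Matrix.map_apply, smul_eq_mul]
  have hεT : ∀ i j l, ε i (T j l) = algebraMap k K (adM v (y i) j l) := by
    intro i j l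
    rw [hTe, map_sum, Finset.sum_eq_single i]
    · rw [Derivation.leibniz, hε, hεc, if_pos rfl]
      simp
    · intro m _ hm
      rw [Derivation.leibniz, hε, hεc, if_neg hm]
      simp
    · intro h
      exact absurd (Finset.mem_univ _) h
  -- the derivations of the power series ring
  let Δ : Fin N → Derivation k R R := fun i =>
    (PowerSeries.X : R) • psDer (δ i) (hδ i) + psDer (ε i) (hε i)
  have hΔ : ∀ i f, Δ i f = PowerSeries.X * psDer (δ i) (hδ i) f + psDer (ε i) (hε i) f :=
    fun i f => rfl
  have hc0 : ∀ i j, PowerSeries.coeff 0 (Δ i (expV T a j)) = 0 := by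
    intro i j
    rw [hΔ, map_add, coeff_psDer]
    simp [expV, hεa]
  have hc1 : ∀ i j, PowerSeries.coeff 1 (Δ i (expV T a j)) = δ i (a j)
      + ∑ l, algebraMap k K (adM v (y i) j l) * a l := by
    intro i j
    rw [hΔ, map_add, coeff_psDer, show (1 : ℕ) = 0 + 1 from rfl, PowerSeries.coeff_succ_X_mul,
      coeff_psDer]
    congr 1
    · simp [expV]
    · simp only [expV, PowerSeries.coeff_mk, zero_add, Nat.factorial_one, Nat.cast_one, inv_one,
        one_mul, pow_one]
      unfold Matrix.mulVec dotProduct
      rw [map_sum]
      refine Finset.sum_congr rfl fun l _ => ?_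
      rw [Derivation.leibniz, hεa, hεT, smul_zero, zero_add, smul_eq_mul, mul_comm]
  let U : Matrix (Fin N) (Fin n) R := Matrix.of fun i j =>
    PowerSeries.mk fun m => PowerSeries.coeff (m + 1) (Δ i (expV T a j))
  have hU : ∀ i j, Δ i (expV T a j) = PowerSeries.X * U i j := fun i j =>
    eq_X_mul_of_coeff_zero (hc0 i j)
  have hrank : N ≤ (U.map (algebraMap R F)).rank := by
    have h1 := rank_map_le (algebraMap R F) (IsFractionRing.injective R F)
      (PowerSeries.constantCoeff (R := K)) U
    refine le_trans ?_ h1
    have h2 : (U.map (PowerSeries.constantCoeff (R := K))).row = (fun i => fun j => δ i (a j)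
      + ∑ l, algebraMap k K (adM v (y i) j l) * a l) := by
      funext i j
      show PowerSeries.constantCoeff (PowerSeries.mk fun m =>
        PowerSeries.coeff (m + 1) (Δ i (expV T a j))) = _
      rw [← PowerSeries.coeff_zero_eq_constantCoeff_apply, PowerSeries.coeff_mk, zero_add, hc1]
    have h3 := LinearIndependent.rank_matrix (M := U.map (PowerSeries.constantCoeff (R := K)))
      (by rw [h2]; exact hli)
    rw [h3, Fintype.card_fin]
  have hrow := li_row_of_rank _ hrank
  have hX : algebraMap R F PowerSeries.X ≠ 0 := by
    intro h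
    exact PowerSeries.X_ne_zero ((map_eq_zero_iff _ (IsFractionRing.injective R F)).1 h)
  have hliF : LinearIndependent F (fun i => fun j => algebraMap R F (Δ i (expV T a j))) := by
    rw [Fintype.linearIndependent_iff] at hrow ⊢
    intro w hw i
    have h1 := hrow (fun i => w i * algebraMap R F PowerSeries.X) (by
      rw [← hw]
      refine Finset.sum_congr rfl fun i _ => ?_
      funext j
      show (w i * algebraMap R F PowerSeries.X) * algebraMap R F (U i j)
        = w i * algebraMap R F (Δ i (expV T a j))
      rw [hU, map_mul]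
      ring) i
    exact (mul_eq_zero.1 h1).resolve_right hX
  exact exists_algebraicIndependent_of_derivations (fun j => expV T a j) Δ hliF

end F80
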