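import Pool.Agent.H88.F80.Deg
import Pool.Agent.H88.F80.DerRank
import Pool.Agent.H88.F80.ExpSeries
import Pool.Agent.H88.F80.SatAux3
/-! Module SAT (MP_80e906_al): saturation by the subalgebra. -/
open Module TensorProduct
universe u
namespace F80

section
variable {k : Type*} [Field k] {g : Type*} [LieRing g] [LieAlgebra k g] {n : ℕ}
  (v : Basis (Fin n) k g)

theorem matA_map {A B : Type*} [CommRing A] [Algebra k A] [CommRing B] [Algebra k B]
    (f : A →+* B) (hf : ∀ c : k, f (algebraMap k A c) = algebraMap k B c) (a : Fin n → A) :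
    (matA v A a).map f = matA v B (fun j => f (a j)) := by
  ext i j
  rw [Matrix.map_apply, matA_apply, matA_apply, map_sum]
  refine Finset.sum_congr rfl fun l _ => ?_
  rw [map_mul, hf]

theorem finrank_ker_ad_add {A : Type*} [Field A] [Algebra k A] (x : A ⊗[k] g) :
    finrank A (LinearMap.ker (LieAlgebra.ad A (A ⊗[k] g) x : Module.End A (A ⊗[k] g)))
      + (matA v A ((v.baseChange A).repr x)).rank = n := by
  have hfin : Module.Finite A (A ⊗[k] g) := Module.Finite.of_basis (v.baseChange A)
  have h1 := LinearMap.finrank_range_add_finrank_ker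
    (LieAlgebra.ad A (A ⊗[k] g) x : Module.End A (A ⊗[k] g))
  rw [Module.finrank_eq_card_basis (v.baseChange A), Fintype.card_fin] at h1
  rw [← toMatrix_ad_baseChange, Matrix.rank_eq_finrank_range_toLin _ (v.baseChange A)
    (v.baseChange A), Matrix.toLin_toMatrix]
  omega

theorem nilpotent_ad_iff {A : Type*} [Field A] [Algebra k A] (x : A ⊗[k] g) :
    IsNilpotent (LieAlgebra.ad A (A ⊗[k] g) x : Module.End A (A ⊗[k] g)) ↔
      IsNilpotent (matA v A ((v.baseChange A).repr x)) := by
  rw [← toMatrix_ad_baseChange]
  exact (IsNilpotent.map_iff (f := LinearMap.toMatrixAlgEquiv (v.baseChange A))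
    (LinearMap.toMatrixAlgEquiv (v.baseChange A)).injective).symm

end

theorem sat_core {k : Type u} [Field k] [CharZero k] {g : Type u} [LieRing g]
    [LieAlgebra k g] [FiniteDimensional k g] [LieAlgebra.IsKilling k g] {n : ℕ} (G : IG k g n)
    (r : LieSubalgebra k g) (hr : r.toSubmodule ⊔ G.pos = ⊤)
    {E : Type u} [Field E] [Algebra k E] (x : E ⊗[k] g)
    (hperp : ∀ y ∈ r, killingForm E (E ⊗[k] g) x (1 ⊗ₜ[k] y) = 0)
    (hnil : IsNilpotent (LieAlgebra.ad E (E ⊗[k] g) x : Module.End E (E ⊗[k] g)))
    {N : ℕ} (e : Fin N → E ⊗[k] g) (he : LinearIndependent E e)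
    (D : Fin N → Derivation k E E) (y : Fin N → g) (hyr : ∀ i, y i ∈ r)
    (hrep : ∀ i j, (G.v.baseChange E).repr (e i) j = D i ((G.v.baseChange E).repr x j)
        + ∑ l, algebraMap k E (adM G.v (y i) j l) * (G.v.baseChange E).repr x l)
    {K : Type u} [Field K] [Algebra k K] [Algebra E K] [IsScalarTower k E K] (c : Fin N → K)
    (hcind : AlgebraicIndependent E c) :
    2 * N +
      finrank E (LinearMap.ker (LieAlgebra.ad E (E ⊗[k] g) x : Module.End E (E ⊗[k] g))) ≤
      n := by
  classical
  have hE0 : CharZero E := charZero_of_injective_algebraMap (algebraMap k E).injective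
  set b := G.v.baseChange E with hb
  have hinjEK : Function.Injective (algebraMap E K) := (algebraMap E K).injective
  have hkEK : ∀ c : k, algebraMap E K (algebraMap k E c) = algebraMap k K c := fun c =>
    (IsScalarTower.algebraMap_apply k E K c).symm
  have hδ : ∀ i, ∃ d' : Derivation ℤ K K, (∀ z : E, d' (algebraMap E K z)
      = algebraMap E K ((D i).restrictScalars ℤ z)) ∧ ∀ m, d' (c m) = 0 := fun i =>
    exists_ext_derivation c hcind ((D i).restrictScalars ℤ) (fun _ => 0)
  have hε : ∀ i : Fin N, ∃ d' : Derivation ℤ K K, (∀ z : E, d' (algebraMap E K z)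
      = algebraMap E K ((0 : Derivation ℤ E E) z)) ∧ ∀ m, d' (c m) = if m = i then 1 else 0 :=
    fun i => exists_ext_derivation c hcind 0 (fun m => if m = i then 1 else 0)
  choose δ hδE hδc using hδ
  choose ε hεE hεc using hε
  let a : Fin n → K := fun j => algebraMap E K (b.repr x j)
  have hK0 : CharZero K := charZero_of_injective_algebraMap hinjEK
  -- algebraic independence
  obtain ⟨c', hc'⟩ := algInd_expV G.v y c a δ ε
    (fun i z => by
      rw [← hkEK, hδE, Derivation.restrictScalars_apply, Derivation.map_algebraMap, map_zero])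
    (fun i z => by
      rw [← hkEK, hεE]
      simp)
    (fun i j => by
      show ε i (algebraMap E K (b.repr x j)) = 0
      rw [hεE]
      simp)
    hεc
    (by
      have h1 : LinearIndependent E (fun i => (fun j => b.repr (e i : E ⊗[k] g) j)) := by
        exact he.map' (b.equivFun : (E ⊗[k] g) →ₗ[E] (Fin n → E))
          (LinearMap.ker_eq_bot.2 b.equivFun.injective)
      have h3 := LinearIndependent.rank_matrix
        (M := Matrix.of (fun i j => b.repr (e i : E ⊗[k] g) j)) h1
      rw [Fintype.card_fin] at h3
      have h4 := rank_map_le (RingHom.id E) Function.injective_id (algebraMap E K)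
        (Matrix.of (fun i j => b.repr (e i : E ⊗[k] g) j))
      have h5 := rank_map_le (algebraMap E K) hinjEK (RingHom.id E)
        (Matrix.of (fun i j => b.repr (e i : E ⊗[k] g) j))
      have h6 : (Matrix.of (fun i j => b.repr (e i : E ⊗[k] g) j)).map (RingHom.id E)
          = Matrix.of (fun i j => b.repr (e i : E ⊗[k] g) j) := by
        ext i j
        rfl
      rw [h6, h3] at h5
      have h7 := li_row_of_rank _ h5
      have h8 : ((Matrix.of (fun i j => b.repr (e i : E ⊗[k] g) j)).map (algebraMap E K)).row
          = (fun i => fun j => δ i (a j) + ∑ l, algebraMap k K (adM G.v (y i) j l) * a l) := by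
        funext i j
        show algebraMap E K (b.repr (e i : E ⊗[k] g) j) = _
        rw [hrep, map_add, map_sum]
        congr 1
        · show _ = δ i (algebraMap E K (b.repr x j))
          rw [hδE]
          rfl
        · refine Finset.sum_congr rfl fun l _ => ?_
          rw [map_mul, hkEK]
      rwa [h8] at h7)
  set T : Matrix (Fin n) (Fin n) K := ∑ m, c m • (adM G.v (y m)).map (algebraMap k K) with hT
  have hTcomm : ∀ a : Fin n → K, T * matA G.v K a - matA G.v K a * T
      = matA G.v K (T.mulVec a) := by
    intro a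
    rw [hT, Finset.sum_mul, Finset.mul_sum, ← Finset.sum_sub_distrib]
    have h1 : ∀ m, (c m • (adM G.v (y m)).map (algebraMap k K)) * matA G.v K a
        - matA G.v K a * (c m • (adM G.v (y m)).map (algebraMap k K))
        = c m • matA G.v K (((adM G.v (y m)).map (algebraMap k K)).mulVec a) := by
      intro m
      rw [Matrix.smul_mul, Matrix.mul_smul, ← smul_sub, matA_comm]
    rw [Finset.sum_congr rfl (fun m _ => h1 m)]
    unfold matA
    have h2 : (∑ m, c m • (adM G.v (y m)).map (algebraMap k K)).mulVec a
        = ∑ m, c m • ((adM G.v (y m)).map (algebraMap k K)).mulVec a := by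
      rw [Matrix.sum_mulVec]
      refine Finset.sum_congr rfl fun m _ => ?_
      rw [Matrix.smul_mulVec]
    rw [h2]
    simp_rw [Finset.smul_sum]
    rw [Finset.sum_comm]
    refine Finset.sum_congr rfl fun l _ => ?_
    rw [Finset.sum_apply, Finset.sum_smul]
    refine Finset.sum_congr rfl fun m _ => ?_
    rw [Pi.smul_apply, smul_eq_mul, mul_smul]
  have hTr : T ∈ matSpan G.v r K := by
    rw [hT]
    exact Submodule.sum_mem _ fun m _ => Submodule.smul_mem _ _
      (Submodule.subset_span ⟨y m, hyr m, rfl⟩)
  -- facts over E transported to K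
  have hMK : matA G.v K a = (matA G.v E (b.repr x)).map (algebraMap E K) :=
    (matA_map G.v (algebraMap E K) hkEK _).symm
  have hperpK : ∀ z ∈ r, (matA G.v K a * (adM G.v z).map (algebraMap k K)).trace = 0 := by
    intro z hz
    have h1 := hperp z hz
    rw [killing_baseChange_eq_trace G.v E, matA_one_tmul] at h1
    have h2 : (matA G.v K a * (adM G.v z).map (algebraMap k K)).trace
        = algebraMap E K (matA G.v E (b.repr x) * (adM G.v z).map (algebraMap k E)).trace := by
      rw [hMK]
      have h3 : (adM G.v z).map (algebraMap k K)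
          = ((adM G.v z).map (algebraMap k E)).map (algebraMap E K) := by
        ext i j
        exact (hkEK _).symm
      rw [h3, ← Matrix.map_mul]
      exact (AddMonoidHom.map_trace (algebraMap E K).toAddMonoidHom _).symm
    rw [h2, h1, map_zero]
  have hnilK : IsNilpotent (matA G.v K a) := by
    have h1 := (nilpotent_ad_iff G.v x).1 hnil
    rw [hMK]
    exact h1.map (RingHom.mapMatrix (m := Fin n) (algebraMap E K))
  -- the field F and the element x'
  let R := PowerSeries K
  let F := FractionRing R
  have hinjRF : Function.Injective (algebraMap R F) := IsFractionRing.injective R F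
  have hkRF : ∀ z : k, algebraMap R F (algebraMap k R z) = algebraMap k F z := fun z =>
    (IsScalarTower.algebraMap_apply k R F z).symm
  let a' : Fin n → F := fun j => algebraMap R F (expV T a j)
  let x' : F ⊗[k] g := (G.v.baseChange F).equivFun.symm a'
  have hrx' : ∀ j, (G.v.baseChange F).repr x' j = a' j := by
    intro j
    have h1 : (G.v.baseChange F).equivFun x' = a' :=
      (G.v.baseChange F).equivFun.apply_symm_apply a'
    exact congrFun h1 j
  have hrx'' : ((G.v.baseChange F).repr x' : Fin n → F) = a' := funext hrx'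
  have hMF : matA G.v F ((G.v.baseChange F).repr x')
      = (matA G.v R (expV T a)).map (algebraMap R F) := by
    rw [matA_map G.v (algebraMap R F) hkRF, hrx'']
  have hnil' : IsNilpotent (LieAlgebra.ad F (F ⊗[k] g) x' : Module.End F (F ⊗[k] g)) := by
    rw [nilpotent_ad_iff G.v, hMF]
    exact (nilpotent_expV G.v T hTcomm a hnilK).map
      (RingHom.mapMatrix (m := Fin n) (algebraMap R F))
  have hperp' : ∀ z ∈ r.toSubmodule, killingForm F (F ⊗[k] g) x' (1 ⊗ₜ[k] z) = 0 := by
    intro z hz
    rw [killing_baseChange_eq_trace G.v F, matA_one_tmul, hMF]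
    have h1 := trace_expV_eq_zero G.v r T hTcomm hTr a hperpK z hz
    have h3 : (adM G.v z).map (algebraMap k F)
        = ((adM G.v z).map (algebraMap k R)).map (algebraMap R F) := by
      ext i j
      exact (hkRF _).symm
    have h4 := AddMonoidHom.map_trace (algebraMap R F).toAddMonoidHom
      (matA G.v R (expV T a) * (adM G.v z).map (algebraMap k R))
    rw [h3, ← Matrix.map_mul]
    refine Eq.trans ?_ ((congrArg (algebraMap R F) h1).trans (map_zero _))
    exact h4.symm
  have hz : AlgebraicIndependent k (fun i => a' (c' i)) :=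
    hc'.map' (f := IsScalarTower.toAlgHom k R F) hinjRF
  have hz' : AlgebraicIndependent k (fun i => (G.v.baseChange F).repr x' (c' i)) := by
    have h1 : (fun i => (G.v.baseChange F).repr x' (c' i)) = fun i => a' (c' i) :=
      funext fun i => hrx' (c' i)
    rw [h1]
    exact hz
  have key := deg_bound_coord G r.toSubmodule hr x' hperp' hnil' c' hz'
  -- comparison of the kernels
  have hk1 := finrank_ker_ad_add G.v x
  have hk2 := finrank_ker_ad_add G.v x'
  have hrk : (matA G.v F ((G.v.baseChange F).repr x')).rank
      ≤ (matA G.v E ((G.v.baseChange E).repr x)).rank := by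
    rw [hMF, matA_expV G.v T hTcomm a, Matrix.map_mul, Matrix.map_mul]
    refine (Matrix.rank_mul_le_left _ _).trans ((Matrix.rank_mul_le_right _ _).trans ?_)
    rw [hMK, Matrix.map_map, Matrix.map_map]
    have h1 := rank_map_le (RingHom.id E) Function.injective_id
      (((algebraMap R F).comp (PowerSeries.C (R := K))).comp (algebraMap E K))
      (matA G.v E (b.repr x))
    have h2 : (matA G.v E (b.repr x)).map (RingHom.id E) = matA G.v E (b.repr x) := by
      ext i j
      rfl
    rw [h2] at h1
    exact h1
  omega

theorem sat_bound {k : Type u} [Field k] [CharZero k] {g : Type u} [LieRing g]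
    [LieAlgebra k g] [FiniteDimensional k g] [LieAlgebra.IsKilling k g] {n : ℕ} (G : IG k g n)
    (r : LieSubalgebra k g) (hr : r.toSubmodule ⊔ G.pos = ⊤)
    {E : Type u} [Field E] [Algebra k E] (x : E ⊗[k] g)
    (hperp : ∀ y ∈ r, killingForm E (E ⊗[k] g) x (1 ⊗ₜ[k] y) = 0)
    (hnil : IsNilpotent (LieAlgebra.ad E (E ⊗[k] g) x : Module.End E (E ⊗[k] g))) :
    2 * finrank E (Submodule.span E
        ({z | ∃ D : Derivation k E E, z = (SDer.const D).D x} ∪
          {z | ∃ y ∈ r, z = ⁅(1 ⊗ₜ[k] y : E ⊗[k] g), x⁆}) : Submodule E (E ⊗[k] g)) +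
      finrank E (LinearMap.ker (LieAlgebra.ad E (E ⊗[k] g) x : Module.End E (E ⊗[k] g))) ≤
      n := by
  classical
  set b := G.v.baseChange E with hb
  have hfinE : Module.Finite E (E ⊗[k] g) := Module.Finite.of_basis b
  set S : Set (E ⊗[k] g) := ({z | ∃ D : Derivation k E E, z = (SDer.const D).D x} ∪
          {z | ∃ y ∈ r, z = ⁅(1 ⊗ₜ[k] y : E ⊗[k] g), x⁆}) with hS
  -- an independent family of generators
  obtain ⟨B, hBS, hBspan, hBli⟩ := exists_linearIndependent E S
  have hBfin : Finite B := hBli.finite
  have hBft := Fintype.ofFinite B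
  set N := Fintype.card B with hN
  have hfr : finrank E (Submodule.span E S) = N := by
    rw [← hBspan]
    have := finrank_span_eq_card hBli
    rwa [Subtype.range_coe] at this
  rw [hfr]
  let e : Fin N ≃ B := (Fintype.equivFin B).symm
  have hgen : ∀ i : Fin N, ∃ (D : Derivation k E E) (y : g), y ∈ r ∧
      ∀ j, b.repr (e i : E ⊗[k] g) j = D (b.repr x j)
        + ∑ l, algebraMap k E (adM G.v y j l) * b.repr x l := by
    intro i
    rcases hBS (e i).2 with ⟨D, hD⟩ | ⟨y, hy, hD⟩
    · refine ⟨D, 0, r.zero_mem, fun j => ?_⟩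
      rw [hD, hb, repr_const_D]
      have : adM G.v (0 : g) = 0 := by simp [adM]
      simp [this]
    · refine ⟨0, y, hy, fun j => ?_⟩
      rw [hD, hb, repr_lie_one_tmul]
      simp [Matrix.mulVec, dotProduct]
  choose D y hyr hrep using hgen
  -- the field K
  have hcind : AlgebraicIndependent E (fun m : Fin N => algebraMap (MvPolynomial (Fin N) E)
      (FractionRing (MvPolynomial (Fin N) E)) (MvPolynomial.X m)) := by
    have h1 : AlgebraicIndependent E (fun m : Fin N => (MvPolynomial.X m :
        MvPolynomial (Fin N) E)) := MvPolynomial.algebraicIndependent_X (Fin N) E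
    exact h1.map' (f := IsScalarTower.toAlgHom E (MvPolynomial (Fin N) E)
      (FractionRing (MvPolynomial (Fin N) E))) (IsFractionRing.injective _ _)
  exact sat_core G r hr x hperp hnil (fun i => (e i : E ⊗[k] g)) (hBli.comp e e.injective) D y
    hyr hrep (K := FractionRing (MvPolynomial (Fin N) E)) _ hcind

end F80
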