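import Pool.Agent.H45.F80.Defs
import Pool.Agent.H88.F80.ExpSeries
import Pool.Agent.H88.F80.MinRank
/-! Auxiliary coordinate lemmas for the module SAT (MP_80e906_al). -/
open Module TensorProduct
universe u
namespace F80

section coords
variable {k : Type*} [Field k] {g : Type*} [LieRing g] [LieAlgebra k g] {n : ℕ}
  (v : Basis (Fin n) k g)

/-- The matrix of `ad y`. -/
noncomputable def adM (y : g) : Matrix (Fin n) (Fin n) k :=
  LinearMap.toMatrix v v (LieAlgebra.ad k g y : Module.End k g)

theorem adM_add (y z : g) : adM v (y + z) = adM v y + adM v z := by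
  unfold adM
  rw [map_add, map_add]

theorem adM_smul (c : k) (y : g) : adM v (c • y) = c • adM v y := by
  unfold adM
  rw [map_smul, map_smul]

theorem adM_sum {ι : Type*} (s : Finset ι) (f : ι → g) :
    adM v (∑ i ∈ s, f i) = ∑ i ∈ s, adM v (f i) := by
  unfold adM
  rw [map_sum, map_sum]

theorem adM_lie (y z : g) : adM v ⁅y, z⁆ = adM v y * adM v z - adM v z * adM v y := by
  unfold adM
  rw [← LinearMap.toMatrix_mul, ← LinearMap.toMatrix_mul, ← map_sub]
  congr 1
  ext w
  simp

theorem adM_apply (y : g) (i j : Fin n) : adM v y i j = v.repr ⁅y, v j⁆ i := by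
  unfold adM
  rw [LinearMap.toMatrix_apply]
  rfl

/-- `[ad y, ad v_l] = ∑ (ad y)_{pl} ad v_p`. -/
theorem adM_comm_basis (y : g) (l : Fin n) :
    adM v y * adM v (v l) - adM v (v l) * adM v y = ∑ p, adM v y p l • adM v (v p) := by
  rw [← adM_lie]
  conv_lhs => rw [← v.sum_repr ⁅y, v l⁆]
  rw [adM_sum]
  simp_rw [adM_smul, adM_apply]

variable (A : Type*) [CommRing A] [Algebra k A]

/-- The matrix of `ad z` for the element `z` with coordinates `a`. -/
noncomputable def matA (a : Fin n → A) : Matrix (Fin n) (Fin n) A :=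
  ∑ l, a l • (adM v (v l)).map (algebraMap k A)

theorem matA_apply (a : Fin n → A) (i j : Fin n) :
    matA v A a i j = ∑ l, a l * algebraMap k A (adM v (v l) i j) := by
  simp [matA, Matrix.sum_apply]

theorem matA_comm (y : g) (a : Fin n → A) :
    (adM v y).map (algebraMap k A) * matA v A a - matA v A a * (adM v y).map (algebraMap k A)
      = matA v A (((adM v y).map (algebraMap k A)).mulVec a) := by
  unfold matA
  rw [Finset.mul_sum, Finset.sum_mul, ← Finset.sum_sub_distrib]
  have h : ∀ l, (adM v y).map (algebraMap k A) * (a l • (adM v (v l)).map (algebraMap k A))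
      - (a l • (adM v (v l)).map (algebraMap k A)) * (adM v y).map (algebraMap k A)
      = ∑ p, (algebraMap k A (adM v y p l) * a l) • (adM v (v p)).map (algebraMap k A) := by
    intro l
    rw [Matrix.mul_smul, Matrix.smul_mul, ← smul_sub]
    have h1 := congrArg (fun M : Matrix (Fin n) (Fin n) k => M.map (algebraMap k A))
      (adM_comm_basis v y l)
    beta_reduce at h1
    rw [Matrix.map_sub _ (by intro a b; simp), Matrix.map_mul, Matrix.map_mul] at h1
    rw [h1]
    ext i j
    rw [Matrix.smul_apply, Matrix.map_apply, Matrix.sum_apply, Matrix.sum_apply, map_sum,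
      smul_eq_mul, Finset.mul_sum]
    refine Finset.sum_congr rfl fun p _ => ?_
    rw [Matrix.smul_apply, Matrix.smul_apply, Matrix.map_apply, smul_eq_mul, smul_eq_mul, map_mul]
    ring
  rw [Finset.sum_congr rfl (fun l _ => h l), Finset.sum_comm]
  refine Finset.sum_congr rfl fun p _ => ?_
  rw [← Finset.sum_smul]
  rfl

theorem repr_lie_one_tmul (y : g) (x : A ⊗[k] g) (i : Fin n) :
    (v.baseChange A).repr ⁅(1 ⊗ₜ[k] y : A ⊗[k] g), x⁆ i
      = ((adM v y).map (algebraMap k A)).mulVec ((v.baseChange A).repr x) i := by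
  conv_lhs => rw [← (v.baseChange A).sum_repr x]
  rw [lie_sum, map_sum, Finsupp.finsetSum_apply]
  unfold Matrix.mulVec dotProduct
  refine Finset.sum_congr rfl fun j _ => ?_
  rw [lie_smul, map_smul, Finsupp.smul_apply, Basis.baseChange_apply,
    LieAlgebra.ExtendScalars.bracket_tmul, Basis.baseChange_repr_tmul]
  show _ = algebraMap k A (adM v y i j) * _
  rw [adM_apply, smul_eq_mul, mul_one, Algebra.smul_def, mul_one, mul_comm]

theorem toMatrix_ad_baseChange (x : A ⊗[k] g) :
    LinearMap.toMatrix (v.baseChange A) (v.baseChange A)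
      (LieAlgebra.ad A (A ⊗[k] g) x : Module.End A (A ⊗[k] g))
      = matA v A ((v.baseChange A).repr x) := by
  ext i j
  rw [LinearMap.toMatrix_apply, LieAlgebra.ad_apply, matA_apply]
  conv_lhs => rw [← (v.baseChange A).sum_repr x]
  rw [sum_lie, map_sum, Finsupp.finsetSum_apply]
  refine Finset.sum_congr rfl fun l _ => ?_
  rw [smul_lie, map_smul, Finsupp.smul_apply, Basis.baseChange_apply, Basis.baseChange_apply,
    LieAlgebra.ExtendScalars.bracket_tmul, Basis.baseChange_repr_tmul,
    adM_apply, smul_eq_mul, mul_one, Algebra.smul_def, mul_one]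

theorem killing_baseChange_eq_trace (x y : A ⊗[k] g) :
    killingForm A (A ⊗[k] g) x y
      = (matA v A ((v.baseChange A).repr x) * matA v A ((v.baseChange A).repr y)).trace := by
  rw [← toMatrix_ad_baseChange, ← toMatrix_ad_baseChange, ← LinearMap.toMatrix_mul,
    ← LinearMap.trace_eq_matrix_trace, killingForm_apply_apply]
  rfl

theorem matA_one_tmul (y : g) :
    matA v A ((v.baseChange A).repr (1 ⊗ₜ[k] y)) = (adM v y).map (algebraMap k A) := by
  ext i j
  rw [matA_apply]
  conv_rhs => rw [← v.sum_repr y, adM_sum]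
  simp only [Matrix.map_apply, Matrix.sum_apply, map_sum, adM_smul, Matrix.smul_apply, smul_eq_mul,
    map_mul]
  refine Finset.sum_congr rfl fun l _ => ?_
  rw [Basis.baseChange_repr_tmul, Algebra.smul_def, mul_one]

theorem repr_const_D {E : Type*} [Field E] [Algebra k E] (D : Derivation k E E) (x : E ⊗[k] g)
    (i : Fin n) :
    (v.baseChange E).repr ((SDer.const D : SDer E (E ⊗[k] g)).D x) i
      = D ((v.baseChange E).repr x i) := by
  induction x using TensorProduct.induction_on with
  | zero => simp
  | tmul a m =>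
    rw [SDer.const_tmul, Basis.baseChange_repr_tmul, Basis.baseChange_repr_tmul]
    rw [Algebra.smul_def, Algebra.smul_def, Derivation.leibniz, Derivation.map_algebraMap]
    simp
  | add x y hx hy => simp only [map_add, Finsupp.add_apply, hx, hy]

end coords

end F80
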