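import Pool.Agent.H88.F80.SatAux
import Pool.Agent.H88.F80.DerRank
/-! Power series lemmas for the module SAT (MP_80e906_al). -/
open Module TensorProduct
universe u
namespace F80

/-! ### coefficientwise derivations -/

section psder
variable {k K : Type*} [Field k] [Field K] [Algebra k K]

/-- The coefficientwise derivation of the power series ring. -/
noncomputable def psDer (d : Derivation ℤ K K) (hd : ∀ a : k, d (algebraMap k K a) = 0) :
    Derivation k (PowerSeries K) (PowerSeries K) where
  toFun f := PowerSeries.mk fun m => d (PowerSeries.coeff m f)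
  map_add' f g := by
    ext m
    simp
  map_smul' c f := by
    ext m
    simp [Algebra.smul_def, PowerSeries.algebraMap_apply, hd]
  map_one_eq_zero' := by
    ext m
    by_cases hm : m = 0
    · simp [hm]
    · simp [PowerSeries.coeff_one, hm]
  leibniz' f g := by
    ext m
    show PowerSeries.coeff m (PowerSeries.mk fun m => d (PowerSeries.coeff m (f * g)))
      = PowerSeries.coeff m (f • (PowerSeries.mk fun m => d (PowerSeries.coeff m g))
        + g • (PowerSeries.mk fun m => d (PowerSeries.coeff m f)))
    rw [PowerSeries.coeff_mk, PowerSeries.coeff_mul, map_add, smul_eq_mul, smul_eq_mul,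
      mul_comm g, PowerSeries.coeff_mul, PowerSeries.coeff_mul, map_sum,
      ← Finset.sum_add_distrib]
    refine Finset.sum_congr rfl fun p _ => ?_
    rw [Derivation.leibniz, PowerSeries.coeff_mk, PowerSeries.coeff_mk, smul_eq_mul, smul_eq_mul]
    ring

theorem coeff_psDer (d : Derivation ℤ K K) (hd : ∀ a : k, d (algebraMap k K a) = 0)
    (f : PowerSeries K) (m : ℕ) :
    PowerSeries.coeff m (psDer d hd f) = d (PowerSeries.coeff m f) := by
  show PowerSeries.coeff m (PowerSeries.mk fun m => d (PowerSeries.coeff m f)) = _
  rw [PowerSeries.coeff_mk]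

theorem eq_X_mul_of_coeff_zero {f : PowerSeries K} (h : PowerSeries.coeff 0 f = 0) :
    f = PowerSeries.X * PowerSeries.mk fun m => PowerSeries.coeff (m + 1) f := by
  ext m
  cases m with
  | zero => rw [h]; simp
  | succ m => rw [PowerSeries.coeff_succ_X_mul, PowerSeries.coeff_mk]

end psder

/-! ### the exponential of a vector and of a matrix -/

section expo
variable {k : Type*} [Field k] {g : Type*} [LieRing g] [LieAlgebra k g] {n : ℕ}
  (v : Basis (Fin n) k g) {K : Type*} [Field K] [Algebra k K]

/-- `exp (s T) a`. -/
noncomputable def expV (T : Matrix (Fin n) (Fin n) K) (a : Fin n → K) : Fin n → PowerSeries K :=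
  fun j => PowerSeries.mk fun m => ((m.factorial : K))⁻¹ * ((T ^ m).mulVec a) j

theorem comm_iterate (T : Matrix (Fin n) (Fin n) K)
    (hT : ∀ a : Fin n → K, T * matA v K a - matA v K a * T = matA v K (T.mulVec a))
    (a : Fin n → K) (m : ℕ) :
    (fun Y : Matrix (Fin n) (Fin n) K => T * Y - Y * T)^[m] (matA v K a)
      = matA v K ((T ^ m).mulVec a) := by
  induction m with
  | zero => simp
  | succ m ih =>
    rw [Function.iterate_succ_apply', ih, hT, Matrix.mulVec_mulVec, ← pow_succ']

theorem matA_expV [CharZero K] (T : Matrix (Fin n) (Fin n) K)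
    (hT : ∀ a : Fin n → K, T * matA v K a - matA v K a * T = matA v K (T.mulVec a))
    (a : Fin n → K) :
    matA v (PowerSeries K) (expV T a)
      = expM T * (matA v K a).map PowerSeries.C * expM (-T) := by
  rw [expM_conj]
  ext i j m
  rw [matA_apply, map_sum]
  show _ = PowerSeries.coeff m (PowerSeries.mk fun q =>
      ((q.factorial : K))⁻¹ * ((fun Y : Matrix (Fin n) (Fin n) K => T * Y - Y * T)^[q]
        (matA v K a)) i j)
  rw [PowerSeries.coeff_mk, comm_iterate v T hT, matA_apply, Finset.mul_sum]
  refine Finset.sum_congr rfl fun l _ => ?_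
  rw [PowerSeries.algebraMap_apply, PowerSeries.coeff_mul_C, expV, PowerSeries.coeff_mk]
  ring

/-- The span of the matrices of `ad y`, `y` in `r`. -/
noncomputable def matSpan (r : LieSubalgebra k g) (K : Type*) [Field K] [Algebra k K] :
    Submodule K (Matrix (Fin n) (Fin n) K) :=
  Submodule.span K {M | ∃ y ∈ r, M = (adM v y).map (algebraMap k K)}

theorem comm_mem_matSpan (r : LieSubalgebra k g) {S Y : Matrix (Fin n) (Fin n) K}
    (hS : S ∈ matSpan v r K) (hY : Y ∈ matSpan v r K) : S * Y - Y * S ∈ matSpan v r K := by
  unfold matSpan at hS hY ⊢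
  induction hS using Submodule.span_induction with
  | mem S hS =>
    obtain ⟨y, hy, rfl⟩ := hS
    induction hY using Submodule.span_induction with
    | mem Y hY =>
      obtain ⟨z, hz, rfl⟩ := hY
      refine Submodule.subset_span ⟨⁅y, z⁆, r.lie_mem hy hz, ?_⟩
      rw [adM_lie, Matrix.map_sub _ (by intro a b; simp), Matrix.map_mul, Matrix.map_mul]
    | zero => simp
    | add A B _ _ hA hB =>
      have : (adM v y).map (algebraMap k K) * (A + B) - (A + B) * (adM v y).map (algebraMap k K)
          = ((adM v y).map (algebraMap k K) * A - A * (adM v y).map (algebraMap k K))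
          + ((adM v y).map (algebraMap k K) * B - B * (adM v y).map (algebraMap k K)) := by
        noncomm_ring
      rw [this]
      exact Submodule.add_mem _ hA hB
    | smul c A _ hA =>
      rw [Matrix.mul_smul, Matrix.smul_mul, ← smul_sub]
      exact Submodule.smul_mem _ _ hA
  | zero => simp
  | add A B _ _ hA hB =>
    have : (A + B) * Y - Y * (A + B) = (A * Y - Y * A) + (B * Y - Y * B) := by noncomm_ring
    rw [this]
    exact Submodule.add_mem _ hA hB
  | smul c A _ hA =>
    rw [Matrix.mul_smul, Matrix.smul_mul, ← smul_sub]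
    exact Submodule.smul_mem _ _ hA

theorem comm_iterate_mem (r : LieSubalgebra k g) {S Y : Matrix (Fin n) (Fin n) K}
    (hS : S ∈ matSpan v r K) (hY : Y ∈ matSpan v r K) (m : ℕ) :
    (fun Z : Matrix (Fin n) (Fin n) K => S * Z - Z * S)^[m] Y ∈ matSpan v r K := by
  induction m with
  | zero => exact hY
  | succ m ih =>
    rw [Function.iterate_succ_apply']
    exact comm_mem_matSpan v r hS ih

theorem trace_expV_eq_zero [CharZero K] (r : LieSubalgebra k g) (T : Matrix (Fin n) (Fin n) K)
    (hT : ∀ a : Fin n → K, T * matA v K a - matA v K a * T = matA v K (T.mulVec a))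
    (hTr : T ∈ matSpan v r K) (a : Fin n → K)
    (hperp : ∀ y ∈ r, (matA v K a * (adM v y).map (algebraMap k K)).trace = 0) (y : g)
    (hy : y ∈ r) :
    (matA v (PowerSeries K) (expV T a) * (adM v y).map (algebraMap k (PowerSeries K))).trace
      = 0 := by
  have hspan : ∀ Z ∈ matSpan v r K, (matA v K a * Z).trace = 0 := by
    intro Z hZ
    unfold matSpan at hZ
    induction hZ using Submodule.span_induction with
    | mem S hS =>
      obtain ⟨y, hy, rfl⟩ := hS
      exact hperp y hy
    | zero => simp
    | add A B _ _ hA hB => rw [mul_add, Matrix.trace_add, hA, hB, add_zero]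
    | smul c A _ hA => rw [Matrix.mul_smul, Matrix.trace_smul, hA, smul_zero]
  have hY : (adM v y).map (algebraMap k (PowerSeries K))
      = ((adM v y).map (algebraMap k K)).map PowerSeries.C := by
    ext i j
    simp [PowerSeries.algebraMap_apply]
  rw [matA_expV v T hT a, hY, Matrix.mul_assoc, Matrix.mul_assoc, Matrix.trace_mul_comm,
    Matrix.mul_assoc]
  have h2 : expM (-T) * ((adM v y).map (algebraMap k K)).map PowerSeries.C * expM T
      = Matrix.of fun i j => PowerSeries.mk fun m => ((m.factorial : K))⁻¹
        * ((fun Y : Matrix (Fin n) (Fin n) K => (-T) * Y - Y * (-T))^[m]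
          ((adM v y).map (algebraMap k K))) i j := by
    have := expM_conj (-T) ((adM v y).map (algebraMap k K))
    rwa [neg_neg] at this
  rw [h2]
  ext m
  rw [map_zero]
  have hmem : (fun Y : Matrix (Fin n) (Fin n) K => (-T) * Y - Y * (-T))^[m]
          ((adM v y).map (algebraMap k K)) ∈ matSpan v r K :=
    comm_iterate_mem v r (Submodule.neg_mem _ hTr) (Submodule.subset_span ⟨y, hy, rfl⟩) m
  have h3 := hspan _ hmem
  have h4 : PowerSeries.coeff m ((matA v K a).map PowerSeries.C *
      (Matrix.of fun i j => PowerSeries.mk fun m => ((m.factorial : K))⁻¹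
        * ((fun Y : Matrix (Fin n) (Fin n) K => (-T) * Y - Y * (-T))^[m]
          ((adM v y).map (algebraMap k K))) i j)).trace
      = ((m.factorial : K))⁻¹ * (matA v K a * (fun Y : Matrix (Fin n) (Fin n) K =>
        (-T) * Y - Y * (-T))^[m] ((adM v y).map (algebraMap k K))).trace := by
    unfold Matrix.trace
    rw [map_sum, Finset.mul_sum]
    refine Finset.sum_congr rfl fun i _ => ?_
    rw [Matrix.diag_apply, Matrix.diag_apply, Matrix.mul_apply, Matrix.mul_apply, map_sum,
      Finset.mul_sum]
    refine Finset.sum_congr rfl fun j _ => ?_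
    rw [Matrix.map_apply, PowerSeries.coeff_C_mul, Matrix.of_apply, PowerSeries.coeff_mk]
    ring
  rw [h4, h3, mul_zero]

theorem expM_neg_mul [CharZero K] (T : Matrix (Fin n) (Fin n) K) : expM (-T) * expM T = 1 := by
  have := expM_mul_neg (-T)
  rwa [neg_neg] at this

theorem nilpotent_expV [CharZero K] (T : Matrix (Fin n) (Fin n) K)
    (hT : ∀ a : Fin n → K, T * matA v K a - matA v K a * T = matA v K (T.mulVec a))
    (a : Fin n → K) (hnil : IsNilpotent (matA v K a)) :
    IsNilpotent (matA v (PowerSeries K) (expV T a)) := by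
  obtain ⟨m, hm⟩ := hnil
  refine ⟨m, ?_⟩
  rw [matA_expV v T hT a]
  have h1 : ∀ j, (expM T * (matA v K a).map PowerSeries.C * expM (-T)) ^ j
      = expM T * ((matA v K a).map PowerSeries.C) ^ j * expM (-T) := by
    intro j
    induction j with
    | zero => rw [pow_zero, pow_zero, mul_one, expM_mul_neg]
    | succ j ih =>
      rw [pow_succ, ih, pow_succ]
      calc expM T * (matA v K a).map PowerSeries.C ^ j * expM (-T)
            * (expM T * (matA v K a).map PowerSeries.C * expM (-T))
          = expM T * (matA v K a).map PowerSeries.C ^ j * (expM (-T) * expM T)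
            * (matA v K a).map PowerSeries.C * expM (-T) := by noncomm_ring
        _ = _ := by rw [expM_neg_mul, mul_one]; noncomm_ring
  rw [h1]
  have h2 : ((matA v K a).map PowerSeries.C) ^ m = ((matA v K a) ^ m).map PowerSeries.C := by
    have := map_pow (RingHom.mapMatrix (m := Fin n) (PowerSeries.C (R := K))) (matA v K a) m
    simpa [RingHom.mapMatrix_apply] using this.symm
  rw [h2, hm]
  simp

end expo

end F80
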